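import Pool.Agent.W_26e041_h22.StageK

/-!
Stage reduction C2: combinatorics.
-/

namespace EPG26

variable {V : Type*} [DecidableEq V]

/-- boundary of the first part -/
def c2bd1 (s : SD V) (at' bt : List V) (a c : V) : List V :=
  rv s.L ++ [s.d] ++ (bt ++ [c]) ++ (at' ++ [a]).reverse ++ [s.z]

/-- boundary of the second part -/
def c2bd2 (s : SD V) (al2 be2 : List V) (a c : V) : List V :=
  [a] ++ al2 ++ [s.w] ++ be2.reverse ++ [c]

/-- the splitting -/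
structure C2C (T : Finset V) (Fs : Finset (Finset V)) (s : SD V) (at' al2 bt be2 : List V)
    (a c : V) (F F₁ F₂ : Finset (Finset V)) : Prop where
  ha : s.al = at' ++ a :: al2
  hb : s.be = bt ++ c :: be2
  eq : F = F₁ ∪ F₂
  dj : Disjoint F₁ F₂
  ne : F₁ ≠ ∅
  reg1 : Reg T Fs (c2bd1 s at' bt a c) F₁
  reg2 : Reg T Fs (c2bd2 s al2 be2 a c) F₂
  com : ∀ v, v ∈ verts (c2bd1 s at' bt a c) F₁ → v ∈ verts (c2bd2 s al2 be2 a c) F₂ →
    v = a ∨ v = c

/-- the vertices drawn in the first part -/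
def c2K (J : Finset V → Finset V) (s : SD V) (at' bt : List V) (a c : V)
    (F₁ : Finset (Finset V)) : Set V :=
  {v | v ∈ Own J (c2bd1 s at' bt a c) F₁ ∨ v ∈ rv s.L ∨ v = s.z ∨ v = s.d ∨ v ∈ at' ∨ v = a ∨
    v ∈ bt ∨ v = c ∨ (∃ f ∈ fanF s.l1.ow (s.z :: at' ++ [a]), v ∈ J f) ∨
    ∃ f ∈ fanF s.l2.ow (s.d :: bt ++ [c]), v ∈ J f}

/-- the vertices of the second part -/
def c2K' (J : Finset V → Finset V) (s : SD V) (al2 be2 : List V) (a c : V)
    (F₂ : Finset (Finset V)) : Set V :=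
  {v | v ∈ verts (c2bd2 s al2 be2 a c) F₂ ∧ v ∉ c2bd2 s al2 be2 a c ∨ v = c ∨ v = a ∨ v ∈ be2 ∨
    v ∈ al2 ∨ ∃ f ∈ F₂ ∪ (fanF s.l2.ow (c :: be2 ++ [s.w]) ∪ fanF s.l1.ow (a :: al2 ++ [s.w])),
      v ∈ J f}

section
variable {G : SimpleGraph V} {T : Finset V} {Fs : Finset (Finset V)} {J : Finset V → Finset V}
variable {Ex : V → V → Prop} {Γ : Dr V} {s : SD V} {F F₁ F₂ : Finset (Finset V)}
variable {at' al2 bt be2 : List V} {a c : V}

theorem c2_split (hS : SC G T Fs J Ex Γ s F) (ha : s.al = at' ++ a :: al2)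
    (hb : s.be = bt ++ c :: be2) (h4 : AdjF F a c) :
    ∃ F₁ F₂, C2C T Fs s at' al2 bt be2 a c F F₁ F₂ := by
  have e : s.bd = (rv s.L ++ [s.d] ++ bt) ++ c :: ((be2 ++ [s.w] ++ al2.reverse) ++
      a :: (at'.reverse ++ [s.z])) := by
    unfold SD.bd
    rw [ha, hb]
    simp
  have h := hS.reg
  rw [e] at h
  obtain ⟨G₁, G₂, h1, h2, h3, h4', h5, h6, h7⟩ := Reg.chord h (by simp) (Or.inl (by simp))
    (DiscC_symm h4)
  have e1 : (rv s.L ++ [s.d] ++ bt) ++ c :: a :: (at'.reverse ++ [s.z]) = c2bd1 s at' bt a c := by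
    simp [c2bd1]
  have e2 : (c :: ((be2 ++ [s.w] ++ al2.reverse) ++ [a])).reverse = c2bd2 s al2 be2 a c := by
    simp [c2bd2]
  refine ⟨G₂, G₁, ha, hb, by rw [h1, Finset.union_comm], h2.symm, h4', e1 ▸ h6, e2 ▸ h5.rev, ?_⟩
  intro v hv1 hv2
  rw [← e1] at hv1
  rw [← e2] at hv2
  have hv3 : v ∈ verts (c :: ((be2 ++ [s.w] ++ al2.reverse) ++ [a])) G₁ := by
    rw [DiscB_mem_verts] at hv2 ⊢
    refine hv2.imp (fun h8 => ?_) id
    rwa [List.mem_reverse] at h8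
  exact (h7 v hv3 hv1).symm

namespace C2C
variable (h : C2C T Fs s at' al2 bt be2 a c F F₁ F₂)
include h

theorem F1 : F₁ ⊆ F := h.eq ▸ Finset.subset_union_left

theorem F2 : F₂ ⊆ F := h.eq ▸ Finset.subset_union_right

theorem card : F₂.card < F.card := by
  rw [h.eq, Finset.card_union_of_disjoint h.dj]
  have := Finset.card_pos.2 (Finset.nonempty_iff_ne_empty.2 h.ne)
  omega

theorem bd_iff {v : V} : v ∈ s.bd ↔ v ∈ c2bd1 s at' bt a c ∨ v ∈ c2bd2 s al2 be2 a c := by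
  unfold SD.bd c2bd1 c2bd2
  rw [h.ha, h.hb]
  simp only [List.mem_append, List.mem_cons, List.mem_reverse, List.not_mem_nil, or_false]
  tauto

theorem a1 : a ∈ c2bd1 s at' bt a c := by simp [c2bd1]

theorem a2 : a ∈ c2bd2 s al2 be2 a c := by simp [c2bd2]

theorem c1 : c ∈ c2bd1 s at' bt a c := by simp [c2bd1]

theorem c2 : c ∈ c2bd2 s al2 be2 a c := by simp [c2bd2]

theorem com1 {v : V} (h1 : v ∈ verts (c2bd1 s at' bt a c) F₁)
    (h2 : v ∈ verts (c2bd2 s al2 be2 a c) F₂) : v ∈ c2bd1 s at' bt a c := by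
  rcases h.com v h1 h2 with rfl | rfl
  · exact h.a1
  · exact h.c1

theorem com2 {v : V} (h1 : v ∈ verts (c2bd1 s at' bt a c) F₁)
    (h2 : v ∈ verts (c2bd2 s al2 be2 a c) F₂) : v ∈ c2bd2 s al2 be2 a c := by
  rcases h.com v h1 h2 with rfl | rfl
  · exact h.a2
  · exact h.c2

theorem in1 {v : V} (h1 : v ∈ verts (c2bd1 s at' bt a c) F₁) (h2 : v ∉ c2bd1 s at' bt a c) :
    v ∈ verts s.bd F ∧ v ∉ s.bd :=
  StageK_in (fun _ hv => h.bd_iff.1 hv) h.F1 (fun _ h3 h4 => h.com1 h3 h4) h1 h2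

theorem in2 {v : V} (h1 : v ∈ verts (c2bd2 s al2 be2 a c) F₂) (h2 : v ∉ c2bd2 s al2 be2 a c) :
    v ∈ verts s.bd F ∧ v ∉ s.bd :=
  StageK_in (l₂ := c2bd1 s at' bt a c) (F₂ := F₁) (fun _ hv => (h.bd_iff.1 hv).symm) h.F2
    (fun _ h3 h4 => h.com2 h4 h3) h1 h2

theorem out {v : V} (h1 : v ∈ verts s.bd F) (h2 : v ∉ s.bd) :
    (v ∈ verts (c2bd1 s at' bt a c) F₁ ∧ v ∉ c2bd1 s at' bt a c) ∨
      (v ∈ verts (c2bd2 s al2 be2 a c) F₂ ∧ v ∉ c2bd2 s al2 be2 a c) :=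
  StageK_out (fun _ hv => h.bd_iff.2 hv) h.eq h1 h2

theorem v1 {v : V} (h1 : v ∈ verts (c2bd1 s at' bt a c) F₁) : v ∈ verts s.bd F := by
  by_cases h2 : v ∈ c2bd1 s at' bt a c
  · exact DiscA_mem_verts_left (h.bd_iff.2 (Or.inl h2))
  · exact (h.in1 h1 h2).1

theorem v2 {v : V} (h1 : v ∈ verts (c2bd2 s al2 be2 a c) F₂) : v ∈ verts s.bd F := by
  by_cases h2 : v ∈ c2bd2 s al2 be2 a c
  · exact DiscA_mem_verts_left (h.bd_iff.2 (Or.inr h2))
  · exact (h.in2 h1 h2).1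

theorem fan1 : fanF s.l1.ow (s.z :: s.al ++ [s.w]) =
    fanF s.l1.ow (s.z :: at' ++ [a]) ∪ fanF s.l1.ow (a :: al2 ++ [s.w]) := by
  have e : s.z :: s.al ++ [s.w] = (s.z :: at') ++ a :: (al2 ++ [s.w]) := by
    rw [h.ha]
    simp
  rw [e, fanF_append]
  rfl

theorem fan2 : fanF s.l2.ow (s.d :: s.be ++ [s.w]) =
    fanF s.l2.ow (s.d :: bt ++ [c]) ∪ fanF s.l2.ow (c :: be2 ++ [s.w]) := by
  have e : s.d :: s.be ++ [s.w] = (s.d :: bt) ++ c :: (be2 ++ [s.w]) := by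
    rw [h.hb]
    simp
  rw [e, fanF_append]
  rfl

/-- the faces of the old stage -/
theorem fc_iff {f : Finset V} : f ∈ s.fc F ↔
    (f ∈ F₁ ∨ f ∈ fanF s.l1.ow (s.z :: at' ++ [a]) ∨ f ∈ fanF s.l2.ow (s.d :: bt ++ [c])) ∨
      f ∈ F₂ ∪ (fanF s.l2.ow (c :: be2 ++ [s.w]) ∪ fanF s.l1.ow (a :: al2 ++ [s.w])) := by
  unfold SD.fc
  rw [h.fan1, h.fan2, h.eq]
  simp only [Finset.mem_union]
  tauto

theorem fan1_dj (hS : SC G T Fs J Ex Γ s F) : Disjoint (fanF s.l1.ow (s.z :: at' ++ [a]))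
    (fanF s.l1.ow (a :: al2 ++ [s.w])) := by
  have hnd := hS.nd
  refine fanF_disj (l := s.z :: at') (m := al2 ++ [s.w]) ?_
  unfold SD.bd at hnd
  rw [h.ha] at hnd
  simp only [List.nodup_cons, List.nodup_append, List.mem_append, List.mem_cons, List.mem_reverse,
    List.not_mem_nil, or_false, List.nodup_reverse, List.reverse_append, List.reverse_cons,
    List.cons_append] at hnd ⊢
  grind

theorem fan2_dj (hS : SC G T Fs J Ex Γ s F) : Disjoint (fanF s.l2.ow (s.d :: bt ++ [c]))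
    (fanF s.l2.ow (c :: be2 ++ [s.w])) := by
  have hnd := hS.nd
  refine fanF_disj (l := s.d :: bt) (m := be2 ++ [s.w]) ?_
  unfold SD.bd at hnd
  rw [h.hb] at hnd
  simp only [List.nodup_cons, List.nodup_append, List.mem_append, List.mem_cons, List.mem_reverse,
    List.not_mem_nil, or_false, List.nodup_reverse, List.reverse_append, List.reverse_cons,
    List.cons_append] at hnd ⊢
  grind

end C2C

end

/-- the faces of the first part -/
def c2G1 (s : SD V) (at' bt : List V) (a c : V) (F₁ : Finset (Finset V)) : Finset (Finset V) :=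
  F₁ ∪ (fanF s.l1.ow (s.z :: at' ++ [a]) ∪ fanF s.l2.ow (s.d :: bt ++ [c]))

/-- the faces of the second part -/
def c2G2 (s : SD V) (al2 be2 : List V) (a c : V) (F₂ : Finset (Finset V)) :
    Finset (Finset V) :=
  F₂ ∪ (fanF s.l2.ow (c :: be2 ++ [s.w]) ∪ fanF s.l1.ow (a :: al2 ++ [s.w]))

section
variable {G : SimpleGraph V} {T : Finset V} {Fs : Finset (Finset V)} {J : Finset V → Finset V}
variable {Ex : V → V → Prop} {Γ : Dr V} {s : SD V} {F F₁ F₂ : Finset (Finset V)}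
variable {at' al2 bt be2 : List V} {a c : V}

namespace C2C
variable (h : C2C T Fs s at' al2 bt be2 a c F F₁ F₂)
include h

theorem fan1a_sub : fanF s.l1.ow (s.z :: at' ++ [a]) ⊆ fanF s.l1.ow (s.z :: s.al ++ [s.w]) := by
  rw [h.fan1]
  exact Finset.subset_union_left

theorem fan1b_sub : fanF s.l1.ow (a :: al2 ++ [s.w]) ⊆ fanF s.l1.ow (s.z :: s.al ++ [s.w]) := by
  rw [h.fan1]
  exact Finset.subset_union_right

theorem fan2a_sub : fanF s.l2.ow (s.d :: bt ++ [c]) ⊆ fanF s.l2.ow (s.d :: s.be ++ [s.w]) := by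
  rw [h.fan2]
  exact Finset.subset_union_left

theorem fan2b_sub : fanF s.l2.ow (c :: be2 ++ [s.w]) ⊆ fanF s.l2.ow (s.d :: s.be ++ [s.w]) := by
  rw [h.fan2]
  exact Finset.subset_union_right

theorem G1_sub (hS : SC G T Fs J Ex Γ s F) : c2G1 s at' bt a c F₁ ⊆ Fs :=
  Finset.union_subset (h.F1.trans hS.reg.sub) (Finset.union_subset
    (h.fan1a_sub.trans hS.fan1_sub) (h.fan2a_sub.trans hS.fan2_sub))

theorem G2_sub (hS : SC G T Fs J Ex Γ s F) : c2G2 s al2 be2 a c F₂ ⊆ Fs :=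
  Finset.union_subset (h.F2.trans hS.reg.sub) (Finset.union_subset
    (h.fan2b_sub.trans hS.fan2_sub) (h.fan1b_sub.trans hS.fan1_sub))

theorem G_dj (hS : SC G T Fs J Ex Γ s F) :
    Disjoint (c2G1 s at' bt a c F₁) (c2G2 s al2 be2 a c F₂) := by
  unfold c2G1 c2G2
  refine Finset.disjoint_union_left.2 ⟨?_, Finset.disjoint_union_left.2 ⟨?_, ?_⟩⟩
  · refine Finset.disjoint_union_right.2 ⟨h.dj, Finset.disjoint_union_right.2 ⟨?_, ?_⟩⟩
    · exact hS.dj2.mono h.F1 h.fan2b_sub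
    · exact hS.dj1.mono h.F1 h.fan1b_sub
  · refine Finset.disjoint_union_right.2 ⟨?_, Finset.disjoint_union_right.2 ⟨?_, ?_⟩⟩
    · exact (hS.dj1.mono h.F2 h.fan1a_sub).symm
    · exact hS.dj3.mono h.fan1a_sub h.fan2b_sub
    · exact h.fan1_dj hS
  · refine Finset.disjoint_union_right.2 ⟨?_, Finset.disjoint_union_right.2 ⟨?_, ?_⟩⟩
    · exact (hS.dj2.mono h.F2 h.fan2a_sub).symm
    · exact h.fan2_dj hS
    · exact (hS.dj3.mono h.fan1b_sub h.fan2a_sub).symm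

theorem fc_iff' {f : Finset V} : f ∈ s.fc F ↔
    f ∈ c2G1 s at' bt a c F₁ ∨ f ∈ c2G2 s al2 be2 a c F₂ := by
  rw [h.fc_iff]
  simp only [c2G1, c2G2, Finset.mem_union]

theorem K_or {v : V} (hv : v ∈ c2K J s at' bt a c F₁) :
    v ∈ verts (c2bd1 s at' bt a c) F₁ ∨ ∃ f ∈ c2G1 s at' bt a c F₁, v ∈ J f := by
  have hb : ∀ {x : V}, x ∈ c2bd1 s at' bt a c → x ∈ verts (c2bd1 s at' bt a c) F₁ :=
    fun h1 => DiscA_mem_verts_left h1
  rcases hv with ((⟨h1, -⟩ | ⟨f, hf, h1⟩) | h1 | h1 | h1 | h1 | h1 | h1 | h1 | ⟨f, hf, h1⟩ |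
    ⟨f, hf, h1⟩)
  · exact Or.inl h1
  · exact Or.inr ⟨f, Finset.mem_union_left _ hf, h1⟩
  · exact Or.inl (hb (by simp [c2bd1, h1]))
  · exact Or.inl (hb (by simp [c2bd1, h1]))
  · exact Or.inl (hb (by simp [c2bd1, h1]))
  · exact Or.inl (hb (by simp [c2bd1, h1]))
  · exact Or.inl (hb (by simp [c2bd1, h1]))
  · exact Or.inl (hb (by simp [c2bd1, h1]))
  · exact Or.inl (hb (by simp [c2bd1, h1]))
  · exact Or.inr ⟨f, Finset.mem_union_right _ (Finset.mem_union_left _ hf), h1⟩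
  · exact Or.inr ⟨f, Finset.mem_union_right _ (Finset.mem_union_right _ hf), h1⟩

theorem K'_or {v : V} (hv : v ∈ c2K' J s al2 be2 a c F₂) :
    v ∈ verts (c2bd2 s al2 be2 a c) F₂ ∨ ∃ f ∈ c2G2 s al2 be2 a c F₂, v ∈ J f := by
  have hb : ∀ {x : V}, x ∈ c2bd2 s al2 be2 a c → x ∈ verts (c2bd2 s al2 be2 a c) F₂ :=
    fun h1 => DiscA_mem_verts_left h1
  rcases hv with (⟨h1, -⟩ | h1 | h1 | h1 | h1 | ⟨f, hf, h1⟩)
  · exact Or.inl h1
  · exact Or.inl (hb (by simp [c2bd2, h1]))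
  · exact Or.inl (hb (by simp [c2bd2, h1]))
  · exact Or.inl (hb (by simp [c2bd2, h1]))
  · exact Or.inl (hb (by simp [c2bd2, h1]))
  · exact Or.inr ⟨f, hf, h1⟩

theorem K_int (hc : Ctx G T Fs J) (hS : SC G T Fs J Ex Γ s F) {v : V}
    (h1 : v ∈ c2K J s at' bt a c F₁) (h2 : v ∈ c2K' J s al2 be2 a c F₂) : v = a ∨ v = c := by
  rcases h.K_or h1 with h3 | ⟨f, hf, hvf⟩
  · rcases h.K'_or h2 with h4 | ⟨g, hg, hvg⟩
    · exact h.com v h3 h4
    · exact absurd (h.v1 h3) (hS.cont hc (h.G2_sub hS hg) hvg).1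
  · rcases h.K'_or h2 with h4 | h4
    · exact absurd (h.v2 h4) (hS.cont hc (h.G1_sub hS hf) hvf).1
    · exact (StageK_cc hc (h.G1_sub hS) (h.G2_sub hS) (h.G_dj hS) ⟨f, hf, hvf⟩ h4).elim

theorem K_sub : c2K J s at' bt a c F₁ ⊆ s.K J F := by
  intro v hv
  rcases hv with ((⟨h1, h2⟩ | ⟨f, hf, h1⟩) | h1 | h1 | h1 | h1 | h1 | h1 | h1 | ⟨f, hf, h1⟩ |
    ⟨f, hf, h1⟩)
  · exact Or.inl (h.in1 h1 h2)
  · exact Or.inr (Or.inr (Or.inr (Or.inr (Or.inr (Or.inr ⟨f,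
      h.fc_iff'.2 (Or.inl (Finset.mem_union_left _ hf)), h1⟩)))))
  · exact Or.inr (Or.inl h1)
  · exact Or.inr (Or.inr (Or.inl h1))
  · exact Or.inr (Or.inr (Or.inr (Or.inl h1)))
  · exact Or.inr (Or.inr (Or.inr (Or.inr (Or.inl (by rw [h.ha]; simp [h1])))))
  · exact Or.inr (Or.inr (Or.inr (Or.inr (Or.inl (by rw [h.ha]; simp [h1])))))
  · exact Or.inr (Or.inr (Or.inr (Or.inr (Or.inr (Or.inl (by rw [h.hb]; simp [h1]))))))
  · exact Or.inr (Or.inr (Or.inr (Or.inr (Or.inr (Or.inl (by rw [h.hb]; simp [h1]))))))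
  · exact Or.inr (Or.inr (Or.inr (Or.inr (Or.inr (Or.inr ⟨f,
      h.fc_iff'.2 (Or.inl (Finset.mem_union_right _ (Finset.mem_union_left _ hf))), h1⟩)))))
  · exact Or.inr (Or.inr (Or.inr (Or.inr (Or.inr (Or.inr ⟨f,
      h.fc_iff'.2 (Or.inl (Finset.mem_union_right _ (Finset.mem_union_right _ hf))), h1⟩)))))

theorem K'_sub : c2K' J s al2 be2 a c F₂ ⊆ s.K J F := by
  intro v hv
  rcases hv with (⟨h1, h2⟩ | h1 | h1 | h1 | h1 | ⟨f, hf, h1⟩)
  · exact Or.inl (h.in2 h1 h2)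
  · exact Or.inr (Or.inr (Or.inr (Or.inr (Or.inr (Or.inl (by rw [h.hb]; simp [h1]))))))
  · exact Or.inr (Or.inr (Or.inr (Or.inr (Or.inl (by rw [h.ha]; simp [h1])))))
  · exact Or.inr (Or.inr (Or.inr (Or.inr (Or.inr (Or.inl (by rw [h.hb]; simp [h1]))))))
  · exact Or.inr (Or.inr (Or.inr (Or.inr (Or.inl (by rw [h.ha]; simp [h1])))))
  · exact Or.inr (Or.inr (Or.inr (Or.inr (Or.inr (Or.inr ⟨f,
      h.fc_iff'.2 (Or.inr hf), h1⟩)))))

theorem K_cov {v : V} (hv : v ∈ s.K J F) : v ∈ c2K J s at' bt a c F₁ ∨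
    v ∈ c2K' J s al2 be2 a c F₂ := by
  rcases hv with (⟨h1, h2⟩ | h1 | h1 | h1 | h1 | h1 | ⟨f, hf, h1⟩)
  · rcases h.out h1 h2 with h3 | h3
    · exact Or.inl (Or.inl (Or.inl h3))
    · exact Or.inr (Or.inl h3)
  · exact Or.inl (Or.inr (Or.inl h1))
  · exact Or.inl (Or.inr (Or.inr (Or.inl h1)))
  · exact Or.inl (Or.inr (Or.inr (Or.inr (Or.inl h1))))
  · rw [h.ha] at h1
    simp only [List.mem_append, List.mem_cons] at h1
    rcases h1 with h1 | h1 | h1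
    · exact Or.inl (Or.inr (Or.inr (Or.inr (Or.inr (Or.inl h1)))))
    · exact Or.inl (Or.inr (Or.inr (Or.inr (Or.inr (Or.inr (Or.inl h1))))))
    · exact Or.inr (Or.inr (Or.inr (Or.inr (Or.inr (Or.inl h1)))))
  · rw [h.hb] at h1
    simp only [List.mem_append, List.mem_cons] at h1
    rcases h1 with h1 | h1 | h1
    · exact Or.inl (Or.inr (Or.inr (Or.inr (Or.inr (Or.inr (Or.inr (Or.inl h1)))))))
    · exact Or.inl (Or.inr (Or.inr (Or.inr (Or.inr (Or.inr (Or.inr (Or.inr (Or.inl h1))))))))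
    · exact Or.inr (Or.inr (Or.inr (Or.inr (Or.inl h1))))
  · rcases h.fc_iff'.1 hf with h2 | h2
    · rcases Finset.mem_union.1 h2 with h2 | h2
      · exact Or.inl (Or.inl (Or.inr ⟨f, h2, h1⟩))
      · rcases Finset.mem_union.1 h2 with h2 | h2
        · exact Or.inl (Or.inr (Or.inr (Or.inr (Or.inr (Or.inr (Or.inr (Or.inr (Or.inr
            (Or.inl ⟨f, h2, h1⟩)))))))))
        · exact Or.inl (Or.inr (Or.inr (Or.inr (Or.inr (Or.inr (Or.inr (Or.inr (Or.inr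
            (Or.inr ⟨f, h2, h1⟩)))))))))
    · exact Or.inr (Or.inr (Or.inr (Or.inr (Or.inr (Or.inr ⟨f, h2, h1⟩)))))

/-- contents of the first part are not drawn in the second part -/
theorem G1_K' (hc : Ctx G T Fs J) (hS : SC G T Fs J Ex Γ s F) {f : Finset V}
    (hf : f ∈ c2G1 s at' bt a c F₁) {v : V} (hv : v ∈ J f) : v ∉ c2K' J s al2 be2 a c F₂ := by
  intro h2
  rcases h.K'_or h2 with h4 | h4
  · exact absurd (h.v2 h4) (hS.cont hc (h.G1_sub hS hf) hv).1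
  · exact (StageK_cc hc (h.G1_sub hS) (h.G2_sub hS) (h.G_dj hS) ⟨f, hf, hv⟩ h4).elim

/-- the vertices of the second part except `a, c` are not drawn in the first part -/
theorem und' (hc : Ctx G T Fs J) (hS : SC G T Fs J Ex Γ s F) {v : V}
    (hv : v ∈ verts (c2bd2 s al2 be2 a c) F₂ ∧ v ∉ c2bd2 s al2 be2 a c ∨ v ∈ be2 ∨ v ∈ al2 ∨
      ∃ f ∈ c2G2 s al2 be2 a c F₂, v ∈ J f) :
    Undrawn Γ v ∧ v ∉ c2K J s at' bt a c F₁ := by
  have hnd := hS.nd
  unfold SD.bd at hnd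
  rw [h.ha, h.hb] at hnd
  constructor
  · refine hS.und v ?_
    rcases hv with ⟨h1, h2⟩ | h1 | h1 | ⟨f, hf, h1⟩
    · exact Or.inl (h.in2 h1 h2)
    · exact Or.inr (Or.inr (Or.inl (by rw [h.hb]; simp [h1])))
    · exact Or.inr (Or.inl (by rw [h.ha]; simp [h1]))
    · exact Or.inr (Or.inr (Or.inr ⟨f, h.fc_iff'.2 (Or.inr hf), h1⟩))
  · intro h3
    have h4 : v ∈ c2K' J s al2 be2 a c F₂ := by
      rcases hv with h1 | h1 | h1 | h1
      · exact Or.inl h1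
      · exact Or.inr (Or.inr (Or.inr (Or.inl h1)))
      · exact Or.inr (Or.inr (Or.inr (Or.inr (Or.inl h1))))
      · exact Or.inr (Or.inr (Or.inr (Or.inr (Or.inr h1))))
    have h5 : v = a ∨ v = c := h.K_int hc hS h3 h4
    rcases hv with ⟨h1, h2⟩ | h1 | h1 | ⟨f, hf, h1⟩
    · rcases h5 with h5 | h5
      · exact h2 (h5 ▸ h.a2)
      · exact h2 (h5 ▸ h.c2)
    · rcases h5 with rfl | rfl
      · simp only [List.nodup_cons, List.nodup_append, List.mem_append, List.mem_cons,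
          List.mem_reverse, List.not_mem_nil, or_false, List.nodup_reverse] at hnd
        grind
      · simp only [List.nodup_cons, List.nodup_append, List.mem_append, List.mem_cons,
          List.mem_reverse, List.not_mem_nil, or_false, List.nodup_reverse] at hnd
        grind
    · rcases h5 with rfl | rfl
      · simp only [List.nodup_cons, List.nodup_append, List.mem_append, List.mem_cons,
          List.mem_reverse, List.not_mem_nil, or_false, List.nodup_reverse] at hnd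
        grind
      · simp only [List.nodup_cons, List.nodup_append, List.mem_append, List.mem_cons,
          List.mem_reverse, List.not_mem_nil, or_false, List.nodup_reverse] at hnd
        grind
    · have h6 := hS.cont_bd hc (h.G2_sub hS hf) h1
      rcases h5 with h5 | h5
      · exact h6 (h.bd_iff.2 (Or.inr (h5 ▸ h.a2)))
      · exact h6 (h.bd_iff.2 (Or.inr (h5 ▸ h.c2)))

end C2C

end

end EPG26
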