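import Pool.Agent.W_26e041_h22.StageP

/-!
Stage reduction C2: the placement of `at'` and `a` on line 1.
-/

namespace EPG26

variable {V : Type*} [DecidableEq V]

theorem lineD_mono {U : Bool → Finset ℚ} {Λ lc c0 b lo hi s0 s1 x₁ y₁ : ℚ} (h1 : lo ≤ x₁)
    (h2 : x₁ ≤ hi) (h3 : s0 ≤ y₁) (h4 : y₁ ≤ s1) :
    lineD U Λ lc c0 b lo x₁ s0 y₁ ≤ lineD U Λ lc c0 b lo hi s0 s1 := by
  rintro o l x (((hx | hx) | hx) | hx)
  · exact Or.inl (Or.inl (Or.inl hx))
  · obtain ⟨h5, h6, h7, h8⟩ := (LineA_mem h1).1 hx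
    exact Or.inl (Or.inl (Or.inr ((LineA_mem (h1.trans h2)).2 ⟨h5, h6, h7, h8.trans_le h2⟩)))
  · exact Or.inl (Or.inr hx)
  · obtain ⟨h5, h6, h7, h8⟩ := (LineA_mem h3).1 hx
    exact Or.inr ((LineA_mem (h3.trans h4)).2 ⟨h5, h6, h7, h8.trans_le h4⟩)

/-- The drawing after the placement of `at' ++ [a]` on line 1: `a` has the column `Xs` up to `yc`. -/
structure P2St (G : SimpleGraph V) (J : Finset V → Finset V) (Γ : Dr V) (U : Bool → Finset ℚ)
    (D : Cov) (s : SD V) (at' : List V) (a : V) (yc Xs : ℚ) (Γb : Dr V) (Ub : Bool → Finset ℚ)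
    (qs : List (Pl V)) (c0 ea lo s0 : ℚ) : Prop where
  vs : qs.map Pl.v = at'
  ord : OrdP (max s.A s.l1.e) qs s.Xd
  step : Step G Γ U (plR U D s.l1.Λ s.l1.lc s.Xw s.B)
    {q | q = s.z ∨ q ∈ at' ++ [a] ∨ ∃ f ∈ fanF s.l1.ow (s.z :: at' ++ [a]), q ∈ J f} Γb Ub
  z : ∃ sz, s.l1.e ≤ sz ∧ Γb s.z = Γ s.z ⊔ hseg false s.l1.Λ s.l1.e sz
  pld : ∀ q ∈ qs, PlD Γb Ub D s.l1.Λ s.B q
  new : ∀ q ∈ qs, q.X ∉ U true
  cova : Γb a = seg false s.l1.Λ Xs ea ⊔ seg true Xs s.l1.Λ yc
  XsU : Xs ∉ U true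
  XsUb : Xs ∈ Ub true
  ycU : yc ∉ U false
  ycUb : yc ∈ Ub false
  priv : ∀ x q, s.B ≤ x → x ∈ Γb q true Xs → q = a
  rowc : ∀ x q, x ∉ Γb q false yc
  fill : ∀ f ∈ fanF s.l1.ow (s.z :: at' ++ [a]), Filled G Γb (J f)
  chain : List.IsChain (Ov Γb) (s.z :: at' ++ [a])
  ow : ∀ v ∈ s.z :: at' ++ [a], Ov Γb v s.l1.ow
  line : LineOK Γb D s.l1.ow s.l1.Λ a Xs c0 ea s.l1.R lo s.l1.hi s0 s.l1.s1
  Xea : Xs < ea
  eX : ea < s.Xw

/-- The placement of `at' ++ [a]`. -/
theorem stage_p2 {G : SimpleGraph V} {T : Finset V} {Fs : Finset (Finset V)}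
    {J : Finset V → Finset V} {Ex : V → V → Prop} (hc : Ctx G T Fs J) {Γ : Dr V}
    {U : Bool → Finset ℚ} {D : Cov} {s : SD V} {F : Finset (Finset V)} (hw : Wd G Γ U)
    (hD : Adm U D) (hG : SG Γ U D s) (hS : SC G T Fs J Ex Γ s F) {at' al2 : List V} {a : V}
    (ha : s.al = at' ++ a :: al2) {p q α β : ℚ} (hpq : p < q) (hXp : s.Xd ≤ p) (hqX : q ≤ s.Xw)
    (hαβ : α < β) (hBα : s.B ≤ α) :
    ∃ (yc Xs : ℚ) (Γb : Dr V) (Ub : Bool → Finset ℚ) (qs : List (Pl V)) (c0 ea lo s0 : ℚ),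
      p < Xs ∧ Xs < q ∧ α < yc ∧ yc < β ∧
      P2St G J Γ U D s at' a yc Xs Γb Ub qs c0 ea lo s0 := by
  obtain ⟨Γa, Ua, qs, lv, lc', c0', e', lo', s0', hP⟩ := stage_p1 hc hw hD hG hS ha
  obtain ⟨Xs, hX1, hX2, hXU⟩ := exists_fresh Ua true hpq
  obtain ⟨yc, hy1, hy2, hyU⟩ := exists_fresh (fun o => insert Xs (Ua o)) false hαβ
  rw [Finset.mem_insert, not_or] at hyU
  obtain ⟨hyX, hyU⟩ := hyU
  have hsub := hP.step.sub
  have hDa : Adm Ua D := hD.mono hsub
  have hl := hG.line1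
  have hlvm : lv ∈ s.z :: at' := List.mem_of_getLast? hP.last
  obtain ⟨pre, hpre⟩ := List.getLast?_eq_some_iff.1 hP.last
  have hnd := hS.nd
  unfold SD.bd at hnd
  rw [ha] at hnd
  simp only [List.nodup_cons, List.nodup_append, List.mem_append, List.mem_cons,
      List.mem_reverse, List.not_mem_nil, or_false, List.nodup_reverse] at hnd
  have hlist : s.z :: s.al ++ [s.w] = (s.z :: at' ++ [a]) ++ (al2 ++ [s.w]) := by
    rw [ha]
    simp
  have hz_a : s.z ≠ a := by grind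
  have ha_at : a ∉ at' := by grind
  have hz_at : s.z ∉ at' := by grind
  have hat_nd : at'.Nodup := by grind
  have hf0e : ({s.l1.ow, lv, a} : Finset V) ∈ fanF s.l1.ow (s.z :: at' ++ [a]) := by
    refine DiscH_mem_fanF.2 ⟨pre, lv, a, [], ?_, rfl⟩
    rw [hpre]
    simp
  have hfan : fanF s.l1.ow (s.z :: at' ++ [a]) ⊆ fanF s.l1.ow (s.z :: s.al ++ [s.w]) := by
    have h1 : s.z :: s.al ++ [s.w] = (s.z :: at') ++ a :: (al2 ++ [s.w]) := by
      rw [ha]
      simp
    rw [h1, fanF_append (m := al2 ++ [s.w])]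
    exact Finset.subset_union_left
  have hfFs : fanF s.l1.ow (s.z :: at' ++ [a]) ⊆ Fs := hfan.trans hS.fan1_sub
  have hfan_eq : fanF s.l1.ow (s.z :: at' ++ [a]) =
      insert ({s.l1.ow, lv, a} : Finset V) (fanF s.l1.ow (s.z :: at')) := by
    have h1 : s.z :: at' ++ [a] = pre ++ lv :: [a] := by
      rw [hpre]
      simp
    rw [h1, fanF_append, hpre]
    have h2 : fanF s.l1.ow (lv :: [a]) = insert ({s.l1.ow, lv, a} : Finset V) ∅ := rfl
    rw [h2, Finset.union_insert, Finset.union_empty]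
  have how : s.l1.ow ∉ s.z :: at' ++ [a] := by
    simp only [List.mem_append, List.mem_cons, List.not_mem_nil, or_false]
    grind
  have hlva : lv ≠ a := by
    rintro rfl
    rcases List.mem_cons.1 hlvm with h1 | h1
    · exact hz_a h1.symm
    · exact ha_at h1
  have hadj1 : G.Adj lv a := hc.adj _ (hfFs hf0e) lv (by simp) a (by simp) hlva
  have hadj2 : G.Adj lv s.l1.ow := by
    refine hS.adj1 hc ?_
    rw [hlist]
    exact List.mem_append_left _ (List.mem_append_left _ hlvm)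
  have hadj3 : G.Adj a s.l1.ow := by
    refine hS.adj1 hc ?_
    rw [hlist]
    simp
  have hcont : ∀ f ∈ fanF s.l1.ow (s.z :: at' ++ [a]), ∀ v ∈ J f,
      v ∉ s.bd ∧ v ≠ s.l1.ow ∧ Undrawn Γ v := by
    intro f hf v hv
    refine ⟨hS.cont_bd hc (hfFs hf) hv, (hS.cont hc (hfFs hf) hv).2.1, hS.und v ?_⟩
    exact Or.inr (Or.inr (Or.inr ⟨f, Finset.mem_union_right _ (Finset.mem_union_left _ (hfan hf)),
      hv⟩))
  have hbd : ∀ v ∈ s.z :: at' ++ [a], v ∈ s.bd := by
    intro v hv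
    unfold SD.bd
    rw [ha]
    simp only [List.mem_append, List.mem_cons, List.not_mem_nil, or_false, List.mem_reverse] at hv ⊢
    tauto
  have hf0n : ({s.l1.ow, lv, a} : Finset V) ∉ fanF s.l1.ow (s.z :: at') := by
    intro h1
    refine LineC_notMem (v := a) (ow := s.l1.ow) ?_ ?_ _ h1 (by simp)
    · rintro rfl
      exact how (by simp)
    · rw [List.mem_cons, not_or]
      exact ⟨hz_a.symm, ha_at⟩
  have hcc : ∀ f ∈ fanF s.l1.ow (s.z :: at'), ∀ v ∈ J f, v ∉ J {s.l1.ow, lv, a} := by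
    intro f hf v hv hv'
    have hne : f ≠ {s.l1.ow, lv, a} := by
      rintro rfl
      exact hf0n hf
    exact Finset.disjoint_left.1 (hc.disj f (hfFs (hfan_eq ▸ Finset.mem_insert_of_mem hf)) _
      (hfFs hf0e) hne) hv hv'
  have hunda : Undrawn Γa a := by
    refine Undrawn.grow hP.step.grow (hS.und a (Or.inr (Or.inl (by rw [ha]; simp)))) ?_
    rintro (h1 | h1 | ⟨f, hf, h1⟩)
    · exact hz_a h1.symm
    · exact ha_at h1
    · exact (hcont f (hfan_eq ▸ Finset.mem_insert_of_mem hf) a h1).1 (hbd a (by simp))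
  have hJ0 : ∀ v ∈ J {s.l1.ow, lv, a}, Undrawn Γa v ∧ v ≠ lv ∧ v ≠ a ∧ v ≠ s.l1.ow := by
    intro v hv
    obtain ⟨h1, h2, h3⟩ := hcont _ hf0e v hv
    refine ⟨Undrawn.grow hP.step.grow h3 ?_, ?_, ?_, h2⟩
    · rintro (h4 | h4 | ⟨f, hf, h4⟩)
      · exact h1 (h4 ▸ hbd s.z (by simp))
      · exact h1 (hbd v (by simp [h4]))
      · exact hcc f hf v h4 hv
    · rintro rfl
      exact h1 (hbd v (List.mem_append_left _ hlvm))
    · rintro rfl
      exact h1 (hbd v (by simp))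
  have hfill0 : FillT G {lv, a, s.l1.ow} (J {s.l1.ow, lv, a}) := by
    have h1 : ({lv, a, s.l1.ow} : Finset V) = {s.l1.ow, lv, a} := by
      ext v
      simp only [Finset.mem_insert, Finset.mem_singleton]
      tauto
    rw [h1]
    exact hc.fill _ (hfFs hf0e)
  have hXdX : s.Xd < Xs := hXp.trans_lt hX1
  have hXsw : Xs < s.Xw := hX2.trans_le hqX
  have hs1yc : s.l1.s1 ≤ yc := hl.sB.trans (hBα.trans hy1.le)
  obtain ⟨Γb, Ub, sv, ea, x₁, y₁, i1, i2, i3, i4, i5, i6, i7, i8, i9, i10, i11, i12, i13, i14, i15,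
    i16, i17, i18⟩ := LineOK.place (v := lv) (p := a) (lc' := Xs) (m := Xs) (b := s.Xw) (Yt := yc)
      (J := J {s.l1.ow, lv, a}) (E := fun _ _ => ∅) (UE := fun o => if o then ∅ else {yc})
      hP.step.wd hDa hP.line hunda hadj1 hadj2 hadj3 hXU (hP.eX.trans hXdX) le_rfl hXsw hl.XR hs1yc
      (fun o l x hx => absurd hx (Set.notMem_empty x)) (fun x hx => absurd hx (Set.notMem_empty x))
      hJ0 hfill0
  have hbot : ((fun _ _ => ∅ : Cov)) = ⊥ := rfl
  rw [hbot, sup_bot_eq] at i12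
  have hy1B : y₁ < s.B := i7.trans_le hl.sB
  have hstB : ∀ x l, s.B ≤ x → l ∈ Ua true →
      x ∉ lineD Ua s.l1.Λ lc' c0' s.Xw lo' x₁ s0' y₁ true l := by
    rintro x l hx hl' (((h1 | h1) | h1) | h1)
    · exact h1 hl'
    · exact absurd h1.1 (by decide)
    · exact absurd h1.1 (by decide)
    · have h2 := h1.2.2.2
      rw [max_eq_right i6.le] at h2
      linarith
  have hΛyc : s.l1.Λ < yc := hG.Λ1B.trans_le (hBα.trans hy1.le)
  have hzK : s.z ≠ lv → Γb s.z = Γa s.z := by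
    intro h1
    refine i8.grow.eq ?_
    rintro (h2 | h2 | h2)
    · exact h1 h2
    · exact hz_a h2
    · exact (hcont _ hf0e s.z h2).1 (hbd s.z (by simp))
  have hc0Xw : c0' ≤ s.Xw := hP.line.h4.le.trans (hP.eX.trans hG.o4).le
  have hx1Xw : x₁ ≤ s.Xw := i5.le.trans (hP.line.h2.trans (hP.line.h3.trans hc0Xw))
  refine ⟨yc, Xs, Γb, Ub, qs, sv, ea, x₁, y₁, hX1, hX2, hy1, hy2, ?_⟩
  refine ⟨hP.vs, hP.ord, ?_, ?_, ?_, hP.new, i12, fun h => hXU (hsub _ h), i9,
    fun h => hyU (hsub _ h), i10 false (by simp), fun x v hx => i16 x v (hy1B.le.trans hx), ?_, ?_,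
    ?_, ?_, i18, i1.trans i2, i3⟩
  · refine (hP.step.weaken le_rfl ?_).trans (i8.weaken ?_ ?_)
    · rintro v (h1 | h1 | ⟨f, hf, h1⟩)
      · exact Or.inl h1
      · exact Or.inr (Or.inl (List.mem_append_left _ h1))
      · exact Or.inr (Or.inr ⟨f, hfan_eq ▸ Finset.mem_insert_of_mem hf, h1⟩)
    · refine lineD_plR ?_ hsub hP.lc le_rfl hx1Xw hc0Xw i4.le (hy1B.le) i6.le
      exact (lineD_mono i4.le i5.le i6.le i7.le).trans (lineD_le hDa hP.line hc0Xw hl.XR)
    · rintro v (h1 | h1 | h1)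
      · rw [h1]
        rcases List.mem_cons.1 hlvm with h2 | h2
        · exact Or.inl h2
        · exact Or.inr (Or.inl (List.mem_append_left _ h2))
      · exact Or.inr (Or.inl (by simp [h1]))
      · exact Or.inr (Or.inr ⟨_, hf0e, h1⟩)
  · obtain ⟨sz, h1, h2, h3⟩ := hP.z
    by_cases h4 : s.z = lv
    · have h5 : at' = [] := by
        by_contra h6
        have h7 := hP.last
        rw [StageP_getLast h6] at h7
        exact hz_at (h4 ▸ List.mem_of_getLast? h7)
      have h6 := h3 h5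
      refine ⟨sv, h1.trans (h6.le.trans ?_), ?_⟩
      · exact ((hP.eX.trans hXdX).trans i1).le
      · rw [← h4] at i11
        rw [i11, h2, ← h6, sup_assoc]
        congr 1
        have h7 : sz ≤ sv := by
          rw [h6]
          exact ((hP.eX.trans hXdX).trans i1).le
        funext o l
        ext x
        constructor
        · rintro (h8 | h8)
          · exact ⟨h8.1, h8.2.1, h8.2.2.1, h8.2.2.2.trans_le h7⟩
          · exact ⟨h8.1, h8.2.1, h1.trans h8.2.2.1, h8.2.2.2⟩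
        · rintro ⟨h8, h9, h10, h11⟩
          rcases lt_or_ge x sz with h12 | h12
          · exact Or.inl ⟨h8, h9, h10, h12⟩
          · exact Or.inr ⟨h8, h9, h12, h11⟩
    · exact ⟨sz, h1, (hzK h4).trans h2⟩
  · intro v hv
    have hvat : v.v ∈ at' := by
      rw [← hP.vs]
      exact List.mem_map_of_mem hv
    have hreg : ∀ x, s.B ≤ x → x ∉ lineD Ua s.l1.Λ lc' c0' s.Xw lo' x₁ s0' y₁ true v.X :=
      fun x hx => hstB x _ hx (hP.pld v hv).hX
    by_cases h1 : v.v = lv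
    · have hqne : qs ≠ [] := by
        rintro rfl
        exact absurd hv List.not_mem_nil
      obtain ⟨q0, hq0⟩ : ∃ q, qs.getLast? = some q := by
        cases h20 : qs.getLast? with
        | none => exact absurd (List.getLast?_eq_none_iff.1 h20) hqne
        | some q => exact ⟨q, rfl⟩
      obtain ⟨h2, h3, h4⟩ := hP.lst q0 hq0
      have h5 : v = q0 := by
        have h6 : (qs.map Pl.v).Nodup := by
          rw [hP.vs]
          exact hat_nd
        exact List.inj_on_of_nodup_map h6 hv (List.mem_of_getLast? hq0) (h1.trans h2.symm)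
      subst h5
      refine (hP.pld v hv).stub i8.grow i8.sub h3 h4 (s := sv) ?_ ?_ hreg
      · exact ((hP.eX.trans hXdX).trans i1).le
      · rw [h1]
        exact i11
    · refine (hP.pld v hv).grow i8.grow i8.sub ?_ hreg
      rintro (h2 | h2 | h2)
      · exact h1 h2
      · exact ha_at (h2 ▸ hvat)
      · exact (hcont _ hf0e _ h2).1 (hbd _ (by simp [hvat]))
  · intro x v hx
    have h1 : v = a := i17 false yc x v hyU (by simp) hyX hx
    rw [h1, i12] at hx
    rcases hx with hx | hx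
    · exact hΛyc.ne' hx.2.1
    · exact absurd hx.1 (by decide)
  · intro f hf
    rw [hfan_eq] at hf
    rcases Finset.mem_insert.1 hf with h1 | h1
    · rw [h1]
      exact i13
    · refine (hP.fill f h1).mono i8.grow ?_
      intro v hv
      have h2 := hcont f (hfan_eq ▸ hf) v hv
      rintro (h3 | h3 | h3)
      · exact h2.1 (h3 ▸ hbd lv (List.mem_append_left _ hlvm))
      · exact h2.1 (h3 ▸ hbd a (by simp))
      · exact hcc f h1 v hv h3
  · refine List.isChain_append.2 ⟨hP.chain.imp fun _ _ h1 => h1.mono i8.grow,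
      List.isChain_singleton a, ?_⟩
    intro x hx y hy
    rw [hP.last] at hx
    obtain rfl : lv = x := by simpa using hx
    obtain rfl : a = y := by simpa using hy
    exact i14
  · intro v hv
    rcases List.mem_append.1 hv with h1 | h1
    · exact (hP.ow v h1).mono i8.grow
    · obtain rfl : v = a := by simpa using h1
      exact i15

end EPG26
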