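import Pool.Agent.W_26e041_h22.StC2A
import Pool.Agent.W_26e041_h22.StC2B

/-!
Stage reduction C2: the machine state and the core.
-/

namespace EPG26

variable {V : Type*} [DecidableEq V]

/-- `Ex` or the pair `a, c` -/
def exC (Ex : V → V → Prop) (a c : V) : V → V → Prop :=
  fun u v => Ex u v ∨ (u = c ∧ v = a) ∨ (u = a ∧ v = c)

theorem exC_symm {Ex : V → V → Prop} (hE : ∀ u v, Ex u v → Ex v u) {a c : V} :
    ∀ u v, exC Ex a c u v → exC Ex a c v u := by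
  rintro u v (h | ⟨h1, h2⟩ | ⟨h1, h2⟩)
  · exact Or.inl (hE _ _ h)
  · exact Or.inr (Or.inr ⟨h2, h1⟩)
  · exact Or.inr (Or.inl ⟨h2, h1⟩)

/-- the boundary list of the machine -/
theorem c2_list {s : SD V} {at' bt : List V} {a c : V} {qs : List (Pl V)}
    (hv : qs.map Pl.v = at') :
    rv s.L ++ [s.d] ++ (bt ++ [c]) ++ (qs.map Pl.v ++ [a]).reverse ++ [s.z] =
      c2bd1 s at' bt a c := by
  rw [hv]
  rfl

/-- facts about the region `plR` -/
theorem c2_g1 {U : Bool → Finset ℚ} {D : Cov} {Λ lc Xw B l x : ℚ} (hl : l ∈ U true)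
    (hx : l ≠ lc ∨ B ≤ x) : x ∉ plR U D Λ lc Xw B true l := by
  rw [mem_plR_v]
  rintro ⟨-, h | ⟨h, h'⟩⟩
  · exact h hl
  · rcases hx with hx | hx
    · exact hx h
    · exact absurd h' (not_lt.2 hx)

theorem c2_g2 {U : Bool → Finset ℚ} {D : Cov} {Λ lc Xw B l x : ℚ} (hl : l ∈ U false)
    (hx : l ≠ Λ ∨ Xw ≤ x) : x ∉ plR U D Λ lc Xw B false l := by
  rw [mem_plR_h]
  rintro ⟨-, h | ⟨h, h'⟩⟩
  · exact h hl
  · rcases hx with hx | hx
    · exact hx h
    · exact absurd h' (not_lt.2 hx)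

section
variable {G : SimpleGraph V} {T : Finset V} {Fs : Finset (Finset V)} {J : Finset V → Finset V}
variable {Ex : V → V → Prop} {Γ : Dr V} {U : Bool → Finset ℚ} {D : Cov} {s : SD V}
variable {F F₁ F₂ : Finset (Finset V)} {at' al2 bt be2 : List V} {a c : V}
variable {yc Xs c0 ea lo s0 : ℚ} {Γb : Dr V} {Ub : Bool → Finset ℚ} {qs : List (Pl V)}

/-- the vertices drawn by the placement -/
def p2K (J : Finset V → Finset V) (s : SD V) (at' : List V) (a : V) : Set V :=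
  {q | q = s.z ∨ q ∈ at' ++ [a] ∨ ∃ f ∈ fanF s.l1.ow (s.z :: at' ++ [a]), q ∈ J f}

/-- a vertex of the boundary not on the line 1 is not drawn by the placement -/
theorem C2C.p2_bd (hc : Ctx G T Fs J) (hS : SC G T Fs J Ex Γ s F)
    (h : C2C T Fs s at' al2 bt be2 a c F F₁ F₂) {v : V} (hv : v ∈ s.bd ∨ v ∈ verts s.bd F)
    (h1 : v ≠ s.z) (h2 : v ∉ at') (h3 : v ≠ a) : v ∉ p2K J s at' a := by
  have hv' : v ∈ verts s.bd F := by
    rcases hv with hv | hv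
    · exact DiscA_mem_verts_left hv
    · exact hv
  rintro (h4 | h4 | ⟨f, hf, h4⟩)
  · exact h1 h4
  · rcases List.mem_append.1 h4 with h5 | h5
    · exact h2 h5
    · exact h3 (by simpa using h5)
  · exact (hS.cont hc (h.G1_sub hS (Finset.mem_union_right _ (Finset.mem_union_left _ hf)))
      h4).1 hv'

/-- inner vertices and contents of the first part are not drawn by the placement -/
theorem C2C.p2_own (hc : Ctx G T Fs J) (hS : SC G T Fs J Ex Γ s F)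
    (h : C2C T Fs s at' al2 bt be2 a c F F₁ F₂) {v : V}
    (hv : v ∈ Own J (c2bd1 s at' bt a c) F₁) : v ∉ p2K J s at' a := by
  rcases hv with ⟨h1, h2⟩ | ⟨f, hf, h1⟩
  · refine h.p2_bd hc hS (Or.inr (h.in1 h1 h2).1) ?_ ?_ ?_
    · rintro rfl
      exact h2 (by simp [c2bd1])
    · intro h3
      exact h2 (by simp [c2bd1, h3])
    · rintro rfl
      exact h2 h.a1
  · have hb := hS.cont_bd hc (h.G1_sub hS (Finset.mem_union_left _ hf)) h1
    rintro (h4 | h4 | ⟨g, hg, h4⟩)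
    · exact hb (h4 ▸ h.bd_iff.2 (Or.inl (by simp [c2bd1])))
    · refine hb (h.bd_iff.2 (Or.inl ?_))
      simp only [List.mem_append, List.mem_cons, List.not_mem_nil, or_false] at h4
      simp only [c2bd1, List.mem_append, List.mem_cons, List.not_mem_nil, or_false,
        List.mem_reverse]
      tauto
    · exact StageK_cc hc (h.F1.trans hS.reg.sub) (h.fan1a_sub.trans hS.fan1_sub)
        (hS.dj1.mono h.F1 h.fan1a_sub) ⟨f, hf, h1⟩ ⟨g, hg, h4⟩

/-- contents of the second fan are not drawn by the placement -/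
theorem C2C.p2_fan2 (hc : Ctx G T Fs J) (hS : SC G T Fs J Ex Γ s F)
    (h : C2C T Fs s at' al2 bt be2 a c F F₁ F₂) {v : V}
    (hv : ∃ f ∈ fanF s.l2.ow (s.d :: bt ++ [c]), v ∈ J f) : v ∉ p2K J s at' a := by
  obtain ⟨f, hf, h1⟩ := hv
  have hb := hS.cont_bd hc (h.G1_sub hS (Finset.mem_union_right _ (Finset.mem_union_right _ hf)))
    h1
  rintro (h4 | h4 | ⟨g, hg, h4⟩)
  · exact hb (h4 ▸ h.bd_iff.2 (Or.inl (by simp [c2bd1])))
  · refine hb (h.bd_iff.2 (Or.inl ?_))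
    simp only [List.mem_append, List.mem_cons, List.not_mem_nil, or_false] at h4
    simp only [c2bd1, List.mem_append, List.mem_cons, List.not_mem_nil, or_false,
      List.mem_reverse]
    tauto
  · exact StageK_cc hc (h.fan2a_sub.trans hS.fan2_sub) (h.fan1a_sub.trans hS.fan1_sub)
      (hS.dj3.mono h.fan1a_sub h.fan2a_sub).symm ⟨f, hf, h1⟩ ⟨g, hg, h4⟩

/-- the allowed set of the machine -/
abbrev c2D (Ub : Bool → Finset ℚ) (D : Cov) (s : SD V) (qs : List (Pl V)) (Xs l₀ l₁ : ℚ) : Cov :=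
  stD Ub D (colsQ s.Xz qs) (rowsL s.L) s.B s.Y0 Xs s.Y0 s.Xd l₀ l₁

/-- the machine state -/
theorem c2_MG1 (hc : Ctx G T Fs J) (hw : Wd G Γ U) (hD : Adm U D) (hG : SG Γ U D s)
    (hS : SC G T Fs J Ex Γ s F) (h : C2C T Fs s at' al2 bt be2 a c F F₁ F₂)
    (hP : P2St G J Γ U D s at' a yc Xs Γb Ub qs c0 ea lo s0)
    (h1 : ∀ v ∈ s.be, ¬ AdjF F s.z v) (h2 : ∀ p ∈ at', ∀ v ∈ s.be, ¬ AdjF F p v)
    (h5 : ¬ AdjF F a s.d) (hXd : s.Xd < Xs) (hXw : Xs < s.Xw) (hYc : s.Y0 < yc) :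
    ∃ l₀ l₁, MG1 G PI T Fs J (exC Ex a c) Γb Ub (c2D Ub D s qs Xs l₀ l₁) s.z s.Xz s.h s.A s.B
      (qs.map (wrec s.B)) a Xs s.Xd s.L s.d s.Y0 s.Y0 (bt ++ [c]) F₁ := by
  have hstep := hP.step
  have g2 : ∀ l ∈ U false, l ≠ s.l1.Λ → ∀ x, x ∉ plR U D s.l1.Λ s.l1.lc s.Xw s.B false l :=
    fun l hl hn x => c2_g2 hl (Or.inl hn)
  have hbe : s.be ≠ [] := by
    rw [h.hb]
    simp
  have hwb : SW Γb D {a} true Xs s.B s.Y0 := by
    intro x hx1 hx2
    refine ⟨hD _ _ hP.XsU, fun v => ⟨fun hv => hP.priv x v hx1.le hv, fun hv => ?_⟩⟩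
    rw [Set.mem_singleton_iff.1 hv, hP.cova]
    refine Or.inr ((LineB_mem ?_).2 ⟨rfl, rfl, hG.Λ1B.trans hx1, hx2.trans hYc⟩)
    exact ((hG.Λ1B.trans hx1).trans (hx2.trans hYc)).le
  obtain ⟨l₀, l₁, hl1, hl0, hlk⟩ : ∃ l₀ l₁, l₁ ≤ s.A ∧ (s.L = [] → l₁ ≤ l₀) ∧
      (s.L ≠ [] → TCh s.L s.Y0 ∧ l₀ < l₁ ∧ Solo Γ {lastv s.L s.d, s.d} false s.Y0 l₀ l₁) := by
    by_cases hL : s.L = []
    · exact ⟨s.A, s.A, le_rfl, fun _ => le_rfl, fun h3 => absurd hL h3⟩
    · obtain ⟨h3, l₀, l₁, h4, h6, h7⟩ := hS.lk hbe hL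
      exact ⟨l₀, l₁, h6, fun h8 => absurd h8 hL, fun _ => ⟨h3, h4, h7⟩⟩
  refine ⟨l₀, l₁, ?_⟩
  have hnd := hS.nd
  unfold SD.bd at hnd
  rw [h.ha] at hnd
  simp only [List.nodup_cons, List.nodup_append, List.mem_append, List.mem_cons,
      List.mem_reverse, List.not_mem_nil, or_false, List.nodup_reverse] at hnd
  have hmst := stage_mst (K := p2K J s at' a) hw hG hstep.sub hstep.grow
    (fun r hr => by
      have hr' : r.v ∈ rv s.L := List.mem_map_of_mem hr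
      refine h.p2_bd hc hS (Or.inl ?_) ?_ ?_ ?_
      · unfold SD.bd
        simp [hr']
      · grind
      · grind
      · grind)
    (fun x hx1 hx2 => c2_g1 (hG.XzU hw) (Or.inr hx1.le)) g2 hP.pld hP.ord
    (le_max_left _ _) hXd.le hXw.le hG.ordL le_rfl hwb hl1 hl0
  refine stage_MG1 (K := p2K J s at' a) (D := D) hG.pl hS hstep.wd hstep.grow
    (stD_adm (hD.mono hstep.sub))
    (fun _ _ h3 => Or.inl h3) h.F1 ?_ ?_ ?_ ?_ ?_ ?_ hmst ?_ ?_ ?_ ?_
  · rw [c2_list hP.vs]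
    exact h.reg1
  · rw [c2_list hP.vs]
    exact fun v h3 h4 => h.in1 h3 h4
  · intro v hv
    rcases List.mem_append.1 hv with hv | hv
    · refine fun h3 => h1 v ?_ (CombA_adj_mono h.F1 h3)
      rw [h.hb]
      simp only [List.mem_append, List.mem_cons, List.not_mem_nil, or_false] at hv ⊢
      tauto
    · rw [hP.vs] at hv
      refine fun h3 => CombA_chless_head (l := s.al ++ [s.w]) hS.chA ?_ (CombA_adj_mono h.F1 h3)
      rw [h.ha]
      have h4 : at' ++ a :: al2 ++ [s.w] = (at' ++ [a]) ++ (al2 ++ [s.w]) := by simp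
      rw [h4, List.tail_append_of_ne_nil (by simp)]
      exact List.mem_append_left _ hv
  · rw [hP.vs]
    intro p hp v hv h3
    refine h2 p hp v ?_ (CombA_adj_mono h.F1 h3)
    rw [h.hb]
    simp only [List.mem_append, List.mem_cons, List.not_mem_nil, or_false] at hv ⊢
    tauto
  · rw [hP.vs]
    refine (hS.chA.infx ⟨[s.z], al2 ++ [s.w], ?_⟩).mono h.F1
    rw [h.ha]
    simp
  · exact fun _ h3 => h5 (CombA_adj_mono h.F1 h3)
  · rw [hP.vs]
    exact hP.chain.imp fun _ _ h3 => Or.inr h3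
  · intro h3
    simp at h3
  · intro _ hL
    obtain ⟨h3, h4, h6⟩ := hlk hL
    exact stage_link hw hG hstep.sub hstep.grow g2 h3 h4 hl1 h6
  · rw [c2_list hP.vs]
    exact fun v hv => h.p2_own hc hS hv

end

end EPG26
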