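import Pool.Agent.W_26e041_h22.StC2C

/-!
Stage reduction C2: the core.
-/

namespace EPG26

variable {V : Type*} [DecidableEq V]

theorem chless_concat {F : Finset (Finset V)} {l : List V} {c a : V} (h : Chless F (l ++ [c]))
    (h' : ∀ v ∈ l, ¬ AdjF F v a) : Chless F (l ++ [c] ++ [a]) := by
  intro p x y q w s hl
  rcases List.eq_nil_or_concat s with hs | ⟨s', u, hs⟩
  · subst hs
    have h1 : l ++ [c] ++ [a] = (p ++ x :: y :: q) ++ [w] := by
      rw [hl]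
      simp
    obtain ⟨h2, h3⟩ := List.append_inj' h1 rfl
    obtain rfl : a = w := by simpa using h3
    refine h' x ?_
    rcases List.eq_nil_or_concat (y :: q) with h4 | ⟨t, u, h4⟩
    · simp at h4
    · rw [h4, List.concat_eq_append] at h2
      have h5 : l ++ [c] = (p ++ x :: t) ++ [u] := by
        rw [h2]
        simp
      obtain ⟨h6, -⟩ := List.append_inj' h5 rfl
      rw [h6]
      simp
  · subst hs
    have h1 : l ++ [c] ++ [a] = (p ++ x :: y :: (q ++ w :: s')) ++ [u] := by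
      rw [hl]
      simp
    obtain ⟨h2, -⟩ := List.append_inj' h1 rfl
    exact h p x y q w s' h2

section
variable {G : SimpleGraph V} {T : Finset V} {Fs : Finset (Finset V)} {J : Finset V → Finset V}
variable {Ex : V → V → Prop} {Γ : Dr V} {U : Bool → Finset ℚ} {D : Cov} {s : SD V}
variable {F F₁ F₂ : Finset (Finset V)} {at' al2 bt be2 : List V} {a c : V}
variable {yc Xs c0 ea lo s0 : ℚ} {Γb : Dr V} {Ub : Bool → Finset ℚ} {qs : List (Pl V)}

/-- the vertices drawn by the core -/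
def coK (J : Finset V → Finset V) (s : SD V) (at' bt : List V) (a c : V)
    (F₁ : Finset (Finset V)) : Set V :=
  {v | v ∈ Own J (c2bd1 s at' bt a c) F₁ ∨ v ∈ rv s.L ∨ v = s.d ∨ v ∈ at' ∨
    v ∈ bt ∨ v = c ∨ ∃ f ∈ fanF s.l2.ow (s.d :: bt ++ [c]), v ∈ J f}

theorem coK_iff {v : V} (hv : qs.map Pl.v = at') : v ∈ coK J s at' bt a c F₁ ↔
    (v ∈ KSet J (lN (qs.map (wrec s.B)) a s.L s.d (bt ++ [c]) ++ [s.z]) F₁
      (qs.map (wrec s.B)) s.L ∨ v ∈ s.d :: (bt ++ [c]) ∨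
        ∃ f ∈ fanF s.l2.ow (s.d :: (bt ++ [c])), v ∈ J f) := by
  rw [lN_wrec, c2_list hv]
  unfold coK KSet
  rw [rv_wrec, hv]
  simp only [Set.mem_setOf_eq, List.mem_append, List.mem_cons, List.not_mem_nil, or_false,
    List.cons_append]
  constructor
  · rintro (h | h | h | h | h | h | h) <;> tauto
  · rintro ((h | h | h) | (h | h | h) | h) <;> tauto

/-- the result of the core -/
structure C2R (G : SimpleGraph V) (J : Finset V → Finset V) (Ex : V → V → Prop) (D : Cov)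
    (s : SD V) (at' bt : List V) (a c : V) (F₁ : Finset (Finset V)) (Xs T₁ T₂ : ℚ) (Γb : Dr V)
    (Ub : Bool → Finset ℚ) (Γ' : Dr V) (U' : Bool → Finset ℚ) (lc' c0' e' lo' s0' up : ℚ) :
    Prop where
  step : Step G Γb Ub (coreD Ub D s.l2.Λ s.Xd s.l2.c0 Xs s.l2.lo s.l2.hi s.l2.s0 s.l2.s1 s.B T₁)
    (coK J s at' bt a c F₁) Γ' U'
  line : LineOK Γ' D s.l2.ow s.l2.Λ c lc' c0' e' s.l2.R lo' s.l2.hi s0' s.l2.s1
  eX : e' < Xs
  path : ∀ v ∈ coK J s at' bt a c F₁, v ≠ c → IsPath3 (Γ' v)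
  ext : Ext s.l2.Λ e' (Γ' c)
  fill : ∀ f ∈ F₁ ∪ fanF s.l2.ow (s.d :: bt ++ [c]), Filled G Γ' (J f)
  rz : ∀ f ∈ F₁ ∪ fanF s.l2.ow (s.d :: bt ++ [c]), ∀ p ∈ f, ∀ q ∈ f, p ≠ q →
    Rz (exC Ex a c) Γ' p q
  upc : SW Γ' D {c} true up T₁ T₂
  up1 : s.Xd < up
  up2 : up < Xs
  upU : up ∉ Ub true

/-- The core of the reduction. -/
theorem c2_core (hc : Ctx G T Fs J) (hE : ∀ u v, Ex u v → Ex v u) (hw : Wd G Γ U) (hD : Adm U D)
    (hG : SG Γ U D s) (hS : SC G T Fs J Ex Γ s F) (h : C2C T Fs s at' al2 bt be2 a c F F₁ F₂)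
    (hP : P2St G J Γ U D s at' a yc Xs Γb Ub qs c0 ea lo s0)
    (h1 : ∀ v ∈ s.be, ¬ AdjF F s.z v) (h2 : ∀ p ∈ at', ∀ v ∈ s.be, ¬ AdjF F p v)
    (h3 : ∀ v ∈ bt, ¬ AdjF F a v)
    (h5 : ¬ AdjF F a s.d) (hXd : s.Xd < Xs) (heX : s.l2.e < Xs) (hXw : Xs < s.Xw) {T₁ T₂ : ℚ}
    (hYT : s.Y0 < T₁) (hTc : T₁ < yc) (hTT : T₁ < T₂) :
    ∃ (Γ' : Dr V) (U' : Bool → Finset ℚ) (lc' c0' e' lo' s0' up : ℚ),
      C2R G J Ex D s at' bt a c F₁ Xs T₁ T₂ Γb Ub Γ' U' lc' c0' e' lo' s0' up := by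
  obtain ⟨l₀, l₁, hM⟩ := c2_MG1 hc hw hD hG hS h hP h1 h2 h5 hXd hXw (hYT.trans hTc)
  have hstep := hP.step
  have hnd := hS.nd
  have hlist : lN (qs.map (wrec s.B)) a s.L s.d (bt ++ [c]) ++ [s.z] = c2bd1 s at' bt a c := by
    rw [lN_wrec, c2_list hP.vs]
  have hXdUb : s.Xd ∈ Ub true := hstep.sub _ (hG.XdU hw)
  have hY0Ub : s.Y0 ∈ Ub false := hstep.sub _ (hG.Y0U hw)
  have hΛUb : s.l2.Λ ∈ Ub false := hstep.sub _ (hG.Λ2U hw)
  have hrows : ∀ l ∈ rowsL s.L, s.B < l ∧ l < s.Y0 := fun l hl => rowsL_bd hG.ordL hl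
  have hcols : s.Xd ∉ colsQ s.Xz qs := by
    intro h6
    rcases mem_colsQ.1 h6 with h7 | ⟨q, hq, h7⟩
    · exact hG.hzd.ne' h7
    · exact (CoreG2_ordP_mem hP.ord hq).2.2.ne h7
  have hnd' := hnd
  unfold SD.bd at hnd'
  rw [h.ha, h.hb] at hnd'
  simp only [List.nodup_cons, List.nodup_append, List.mem_append, List.mem_cons,
      List.mem_reverse, List.not_mem_nil, or_false, List.nodup_reverse] at hnd'
  have hdK : s.d ∉ p2K J s at' a := by
    refine h.p2_bd hc hS (Or.inl ?_) ?_ ?_ ?_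
    · unfold SD.bd
      simp
    · grind
    · grind
    · grind
  have hGd : Γb s.d = Γ s.d := hstep.grow.eq hdK
  have hrow : ∀ x, s.Xd ≤ x → x ≤ Xs → ∀ v, x ∉ Γb v false s.Y0 := by
    intro x hx1 hx2 v hv
    rcases hstep.grow.new v _ _ _ hv with h6 | h6
    · exact hG.row x hx1 (hx2.trans hXw.le) v h6
    · exact c2_g2 (hG.Y0U hw) (Or.inl (hG.Λ1B.trans hG.BY).ne') h6.2
  have hdc : SW Γb D {s.d} true s.Xd s.B s.Y0 :=
    hG.dcol.grow hstep.grow fun x _ _ => c2_g1 (hG.XdU hw) (Or.inl hG.lc1.ne')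
  have hac : SW Γb D {a} true Xs s.B T₁ := by
    intro x hx1 hx2
    refine ⟨hD _ _ hP.XsU, fun v => ⟨fun hv => hP.priv x v hx1.le hv, fun hv => ?_⟩⟩
    rw [Set.mem_singleton_iff.1 hv, hP.cova]
    refine Or.inr ((LineB_mem ?_).2 ⟨rfl, rfl, hG.Λ1B.trans hx1, hx2.trans hTc⟩)
    exact ((hG.Λ1B.trans hx1).trans (hx2.trans hTc)).le
  have hL : LineOK Γb D s.l2.ow s.l2.Λ s.d s.Xd s.l2.c0 s.l2.e s.l2.R s.l2.lo s.l2.hi s.l2.s0
      s.l2.s1 := by
    have h6 := hG.line2.ok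
    rw [hG.lc2] at h6
    exact h6.grow hstep.grow (fun x _ _ => c2_g2 (hG.Λ2U hw) (Or.inl hG.ne.symm))
      (fun x _ _ => c2_g2 (hG.Λ2U hw) (Or.inl hG.ne.symm))
      (fun x _ _ => c2_g1 (hG.XdU hw) (Or.inl hG.lc1.ne'))
  have hbeU : ∀ p ∈ bt ++ [c], Undrawn Γb p := by
    intro p hp
    have hp' : p ∈ s.be := by
      rw [h.hb]
      simp only [List.mem_append, List.mem_cons, List.not_mem_nil, or_false] at hp ⊢
      tauto
    refine Undrawn.grow hstep.grow (hS.und p (Or.inr (Or.inr (Or.inl hp')))) ?_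
    simp only [List.mem_append, List.mem_cons, List.not_mem_nil, or_false] at hp
    refine h.p2_bd hc hS (Or.inl ?_) ?_ ?_ ?_
    · unfold SD.bd
      simp [hp']
    · grind
    · grind
    · grind
  have hcon : ∀ f ∈ fanF s.l2.ow (s.d :: (bt ++ [c])), ∀ q ∈ J f, Undrawn Γb q := by
    intro f hf q hq
    refine Undrawn.grow hstep.grow (hS.und q ?_) (h.p2_fan2 hc hS ⟨f, hf, hq⟩)
    refine Or.inr (Or.inr (Or.inr ⟨f, h.fc_iff'.2 (Or.inl ?_), hq⟩))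
    exact Finset.mem_union_right _ (Finset.mem_union_right _ hf)
  have hch : Chless F₁ (s.d :: (bt ++ [c]) ++ [a]) := by
    refine chless_concat (l := s.d :: bt) ?_ ?_
    · refine (hS.chD.infx ⟨[], be2 ++ [s.w], ?_⟩).mono h.F1
      rw [h.hb]
      simp
    · intro v hv h6
      have h7 := DiscC_symm (CombA_adj_mono h.F1 h6)
      rcases List.mem_cons.1 hv with rfl | hv
      · exact h5 h7
      · exact h3 v hv h7
  have hln : List.IsChain (fun p q => ({s.l2.ow, p, q} : Finset V) ∈ Fs) (s.d :: (bt ++ [c])) := by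
    have h6 := hS.ln2
    have h7 : s.d :: s.be ++ [s.w] = (s.d :: (bt ++ [c])) ++ (be2 ++ [s.w]) := by
      rw [h.hb]
      simp
    rw [h7] at h6
    exact (List.isChain_append.1 h6).1
  have hgl : ∀ x, (s.d :: (bt ++ [c])).getLast? = some x → x = c := by
    intro x hx
    have h6 : s.d :: (bt ++ [c]) = (s.d :: bt) ++ [c] := by simp
    rw [h6, List.getLast?_append] at hx
    simpa using hx.symm
  have hKK := fun v => coK_iff (J := J) (s := s) (F₁ := F₁) (a := a) (bt := bt) (c := c) (v := v)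
    hP.vs
  obtain ⟨Γ', U', lv, lc', c0', e', lo', s0', up, k1, k2, k3, k4, k5, k6, k7, k8, k9⟩ :=
    core (T₁ := T₁) (T₂ := T₂) hc (exC_symm hE) hM (hD.mono hstep.sub) stD_le
      (stD_Xd hXdUb hcols hXd.ne) (stD_Y0 hY0Ub fun h6 => lt_irrefl _ (hrows _ h6).2)
      (stD_X0 hP.XsUb le_rfl)
      (stD_line hΛUb (fun h6 => absurd (hrows _ h6).1 (not_lt.2 hG.Λ2B.le))
        (hG.Λ2B.trans hG.BY).ne)
      (stD_band le_rfl hYT hG.BY fun l hl => ⟨(hrows l hl).1.le, (hrows l hl).2.le⟩)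
      hG.YD hrow hdc hac hYT hTT hL hG.line2.sB heX (hXw.le.trans hG.line2.XR)
      (by rw [hGd]; exact hG.line2.ext) hch hln
      (hS.dj2.mono h.F1 h.fan2a_sub) (by
        rw [hlist]
        refine List.nodup_cons.2 ⟨fun h6 => ?_, h.reg1.disc.nodup⟩
        exact (List.nodup_cons.1 (List.nodup_cons.1 hnd).2).1 (h.bd_iff.2 (Or.inl h6)))
      (hS.adj2 hc (by simp)) (by
        rw [hlist]
        exact fun h6 => hS.ow2 (h.v1 h6)) hbeU hcon (by
        intro x hx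
        exact Or.inr (Or.inl ⟨hgl x hx, rfl⟩))
  obtain rfl := hgl lv k1
  obtain ⟨j1, j2, j3, j4⟩ := k9 (by simp)
  exact ⟨Γ', U', lc', c0', e', lo', s0', up, k2.weaken le_rfl fun v hv => (hKK v).2 hv, k3, k4,
    fun v hv hne => k5 v ((hKK v).1 hv) hne, k6, k7, k8, j1, j2, j3, j4⟩

end

end EPG26
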