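import Pool.Agent.W_26e041_h22.StC2D

/-!
Stage reduction C2: the last step and the geometry of the new stage.
-/

namespace EPG26

variable {V : Type*} [DecidableEq V]

/-- pairs in the faces of a fan -/
theorem fan_ov {Γ : Dr V} {ow : V} {l : List V} (hch : List.IsChain (Ov Γ) l)
    (how : ∀ v ∈ l, Ov Γ v ow) : ∀ f ∈ fanF ow l, ∀ p ∈ f, ∀ q ∈ f, p ≠ q → Ov Γ p q := by
  intro f hf p hp q hq hpq
  obtain ⟨l₁, x, y, l₂, h1, h2⟩ := DiscH_mem_fanF.1 hf
  have hxy : Ov Γ x y := by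
    rw [h1] at hch
    exact (List.isChain_cons_cons.1 (List.isChain_append.1 hch).2.1).1
  have hx : Ov Γ x ow := how x (by rw [h1]; simp)
  have hy : Ov Γ y ow := how y (by rw [h1]; simp)
  rw [h2] at hp hq
  simp only [Finset.mem_insert, Finset.mem_singleton] at hp hq
  rcases hp with rfl | rfl | rfl <;> rcases hq with rfl | rfl | rfl
  · exact absurd rfl hpq
  · exact hx.symm
  · exact hy.symm
  · exact hx
  · exact absurd rfl hpq
  · exact hxy
  · exact hy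
  · exact hxy.symm
  · exact absurd rfl hpq

/-- outside the region of the core, vertical lines -/
theorem c2_c1 {Ub : Bool → Finset ℚ} {D : Cov} {Λ Xd c0 X0 lo hi s0 s1 B T₁ l x : ℚ}
    (hl : l ∈ Ub true) (h01 : s0 ≤ s1) (hx : x < B ∨ T₁ < x) (hx' : l ≠ Xd ∨ s1 ≤ x) :
    x ∉ coreD Ub D Λ Xd c0 X0 lo hi s0 s1 B T₁ true l := by
  rintro ⟨-, (((h | h) | h) | h) | h⟩
  · exact h hl
  · exact absurd h.1 (by decide)
  · exact absurd h.1 (by decide)
  · obtain ⟨-, h1, -, h2⟩ := (LineA_mem h01).1 h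
    rcases hx' with h3 | h3
    · exact h3 h1
    · exact absurd h2 (not_lt.2 h3)
  · obtain ⟨h1, h2⟩ := CoreG2_bandv.1 h
    rcases hx with h3 | h3
    · exact absurd h3 (not_lt.2 h1)
    · exact absurd h3 (not_lt.2 h2)

/-- outside the region of the core, horizontal lines -/
theorem c2_c2 {Ub : Bool → Finset ℚ} {D : Cov} {Λ Xd c0 X0 lo hi s0 s1 B T₁ l x : ℚ}
    (hl : l ∈ Ub false) (h01 : lo ≤ hi) (h02 : c0 ≤ X0) (h03 : hi ≤ X0) (hx : l < B ∨ T₁ < l)
    (hx' : l ≠ Λ ∨ X0 ≤ x) :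
    x ∉ coreD Ub D Λ Xd c0 X0 lo hi s0 s1 B T₁ false l := by
  rintro ⟨-, (((h | h) | h) | h) | h⟩
  · exact h hl
  · obtain ⟨-, h1, -, h2⟩ := (LineA_mem h01).1 h
    rcases hx' with h3 | h3
    · exact h3 h1
    · exact absurd (h2.trans_le h03) (not_lt.2 h3)
  · obtain ⟨-, h1, -, h2⟩ := (LineA_mem h02).1 h
    rcases hx' with h3 | h3
    · exact h3 h1
    · exact absurd h2 (not_lt.2 h3)
  · exact absurd h.1 (by decide)
  · obtain ⟨h1, h2⟩ := CoreG2_bandh.1 h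
    rcases hx with h3 | h3
    · exact absurd h3 (not_lt.2 h1)
    · exact absurd h3 (not_lt.2 h2)

/-- the new stage -/
def c2s (s : SD V) (al2 be2 : List V) (a c : V) (up A' T₁ T₂ yc yc2 Xs lc' c0' e' lo' s0' c0 ea lo
    s0 : ℚ) : SD V where
  z := c
  d := a
  w := s.w
  Xz := up
  h := A'
  A := A'
  B := T₁
  Y0 := yc
  Xd := Xs
  Xw := s.Xw
  Top := s.Top
  t0 := yc2
  t1 := T₂
  zt := true
  L := []
  al := be2
  be := al2
  l1 := ⟨s.l2.ow, s.l2.Λ, lc', c0', e', s.l2.R, lo', s.l2.hi, s0', s.l2.s1, s.l2.nr⟩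
  l2 := ⟨s.l1.ow, s.l1.Λ, Xs, c0, ea, s.l1.R, lo, s.l1.hi, s0, s.l1.s1, s.l1.nr⟩

/-- the last piece of `a` -/
def c2E (up Xs yc yc2 : ℚ) : Cov := seg false yc up Xs ⊔ seg true up yc yc2

theorem mem_c2E_h {up Xs yc yc2 l x : ℚ} (h : up ≤ Xs) :
    x ∈ c2E up Xs yc yc2 false l ↔ l = yc ∧ up < x ∧ x < Xs := by
  constructor
  · rintro (h1 | h1)
    · exact ((LineA_mem h).1 h1).2
    · exact absurd h1.1 (by decide)
  · exact fun h1 => Or.inl ((LineA_mem h).2 ⟨rfl, h1⟩)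

theorem mem_c2E_v {up Xs yc yc2 l x : ℚ} (h : yc ≤ yc2) :
    x ∈ c2E up Xs yc yc2 true l ↔ l = up ∧ yc < x ∧ x < yc2 := by
  constructor
  · rintro (h1 | h1)
    · exact absurd h1.1 (by decide)
    · exact ((LineA_mem h).1 h1).2
  · exact fun h1 => Or.inr ((LineA_mem h).2 ⟨rfl, h1⟩)

section
variable {G : SimpleGraph V} {T : Finset V} {Fs : Finset (Finset V)} {J : Finset V → Finset V}
variable {Ex : V → V → Prop} {Γ : Dr V} {U : Bool → Finset ℚ} {D : Cov} {s : SD V}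
variable {F F₁ F₂ : Finset (Finset V)} {at' al2 bt be2 : List V} {a c : V}
variable {yc Xs c0 ea lo s0 : ℚ} {Γb : Dr V} {Ub : Bool → Finset ℚ} {qs : List (Pl V)}
variable {T₁ T₂ yc2 : ℚ} {Γ' : Dr V} {U' : Bool → Finset ℚ} {lc' c0' e' lo' s0' up : ℚ}

/-- `a` is not drawn in the core -/
theorem C2C.co_a (hc : Ctx G T Fs J) (hS : SC G T Fs J Ex Γ s F)
    (h : C2C T Fs s at' al2 bt be2 a c F F₁ F₂) : a ∉ coK J s at' bt a c F₁ := by
  have hnd := hS.nd
  unfold SD.bd at hnd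
  rw [h.ha, h.hb] at hnd
  simp only [List.nodup_cons, List.nodup_append, List.mem_append, List.mem_cons,
      List.mem_reverse, List.not_mem_nil, or_false, List.nodup_reverse] at hnd
  rintro (h1 | h1 | h1 | h1 | h1 | h1 | ⟨f, hf, h1⟩)
  · exact h.reg1.notMem_Own hc h.a1 h1
  · grind
  · grind
  · grind
  · grind
  · grind
  · exact hS.cont_bd hc (h.G1_sub hS (Finset.mem_union_right _ (Finset.mem_union_right _ hf))) h1
      (h.bd_iff.2 (Or.inl h.a1))

/-- `z` is not drawn in the core -/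
theorem C2C.co_z (hc : Ctx G T Fs J) (hS : SC G T Fs J Ex Γ s F)
    (h : C2C T Fs s at' al2 bt be2 a c F F₁ F₂) : s.z ∉ coK J s at' bt a c F₁ := by
  have hnd := hS.nd
  unfold SD.bd at hnd
  rw [h.ha, h.hb] at hnd
  simp only [List.nodup_cons, List.nodup_append, List.mem_append, List.mem_cons,
      List.mem_reverse, List.not_mem_nil, or_false, List.nodup_reverse] at hnd
  have hz : s.z ∈ c2bd1 s at' bt a c := by simp [c2bd1]
  rintro (h1 | h1 | h1 | h1 | h1 | h1 | ⟨f, hf, h1⟩)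
  · exact h.reg1.notMem_Own hc hz h1
  · grind
  · grind
  · grind
  · grind
  · grind
  · exact hS.cont_bd hc (h.G1_sub hS (Finset.mem_union_right _ (Finset.mem_union_right _ hf))) h1
      (h.bd_iff.2 (Or.inl hz))

/-- contents of the first fan are not drawn in the core -/
theorem C2C.co_fan1 (hc : Ctx G T Fs J) (hS : SC G T Fs J Ex Γ s F)
    (h : C2C T Fs s at' al2 bt be2 a c F F₁ F₂) {f : Finset V}
    (hf : f ∈ fanF s.l1.ow (s.z :: at' ++ [a])) {v : V} (hv : v ∈ J f) :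
    v ∉ coK J s at' bt a c F₁ := by
  have hfG := h.G1_sub hS (Finset.mem_union_right F₁ (Finset.mem_union_left
    (fanF s.l2.ow (s.d :: bt ++ [c])) hf))
  have hb : ∀ x ∈ c2bd1 s at' bt a c, v ≠ x := by
    rintro x hx rfl
    exact hS.cont_bd hc hfG hv (h.bd_iff.2 (Or.inl hx))
  rintro (h1 | h1 | h1 | h1 | h1 | h1 | h1)
  · exact h.p2_own hc hS h1 (Or.inr (Or.inr ⟨f, hf, hv⟩))
  · exact hb v (by simp [c2bd1, h1]) rfl
  · exact hb v (by simp [c2bd1, h1]) rfl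
  · exact hb v (by simp [c2bd1, h1]) rfl
  · exact hb v (by simp [c2bd1, h1]) rfl
  · exact hb v (by simp [c2bd1, h1]) rfl
  · exact h.p2_fan2 hc hS h1 (Or.inr (Or.inr ⟨f, hf, hv⟩))

/-- nobody is on the row `yc` after the core -/
theorem c2_rowc (hG : SG Γ U D s) (hP : P2St G J Γ U D s at' a yc Xs Γb Ub qs c0 ea lo s0)
    (hR : C2R G J Ex D s at' bt a c F₁ Xs T₁ T₂ Γb Ub Γ' U' lc' c0' e' lo' s0' up)
    (heX : s.l2.e < Xs) (hYT : s.Y0 < T₁) (hTc : T₁ < yc) (x : ℚ) (q : V) :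
    x ∉ Γ' q false yc := by
  intro hx
  have hl := hG.line2.ok
  rcases hR.step.grow.new q _ _ _ hx with h1 | ⟨-, h1⟩
  · exact hP.rowc x q h1
  · refine c2_c2 hP.ycUb hl.h1.le (hl.h4.le.trans heX.le) ?_ (Or.inr hTc) (Or.inl ?_) h1
    · exact hl.h2.trans (hl.h3.trans (hl.h4.le.trans heX.le))
    · exact ((hG.Λ2B.trans hG.BY).trans (hYT.trans hTc)).ne'

/-- the last step -/
theorem c2_draw (hc : Ctx G T Fs J) (hG : SG Γ U D s)
    (hS : SC G T Fs J Ex Γ s F) (h : C2C T Fs s at' al2 bt be2 a c F F₁ F₂)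
    (hP : P2St G J Γ U D s at' a yc Xs Γb Ub qs c0 ea lo s0)
    (hR : C2R G J Ex D s at' bt a c F₁ Xs T₁ T₂ Γb Ub Γ' U' lc' c0' e' lo' s0' up)
    (h4 : AdjF F a c) (heX : s.l2.e < Xs) (hYT : s.Y0 < T₁) (hTc : T₁ < yc) (hcc : yc < yc2)
    (hcT : yc2 < T₂) :
    Step G Γ' U' (c2E up Xs yc yc2) {a} (Function.update Γ' a (Γ' a ⊔ c2E up Xs yc yc2)) U' := by
  have hrow := c2_rowc hG hP hR heX hYT hTc
  refine Step.draw hR.step.wd (fun _ _ hx => hx) le_sup_left ?_ ?_ ?_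
  · rintro o l x (hx | hx)
    · exact hR.step.wd.lines _ _ _ _ hx
    · cases o with
      | false =>
        rw [((mem_c2E_h hR.up2.le).1 hx).1]
        exact hR.step.sub _ hP.ycUb
      | true =>
        rw [((mem_c2E_v hcc.le).1 hx).1]
        exact hR.upc.mem (v := c) rfl hR.step.wd.lines (hTc.trans (hcc.trans hcT))
  · rintro o l x (hx | hx) hn
    · exact absurd hx hn
    · exact hx
  · rintro o l x (hx | hx) hn w hwa hxw
    · exact absurd hx hn
    · cases o with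
      | false =>
        rw [((mem_c2E_h hR.up2.le).1 hx).1] at hxw
        exact absurd hxw (hrow x w)
      | true =>
        obtain ⟨h1, h2, h3⟩ := (mem_c2E_v hcc.le).1 hx
        rw [h1] at hxw
        have h6 : w = c := ((hR.upc x (hTc.trans h2) (h3.trans hcT)).2 w).1 hxw
        obtain ⟨h7, f, hf, haf, hcf⟩ := h4
        rw [h6]
        exact hc.adj f (hS.reg.sub hf) a haf c hcf h7

end

end EPG26
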