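import Pool.Agent.W_26e041_h22.StC2E

/-!
Stage reduction C2: the geometry and the combinatorics of the new stage.
-/

namespace EPG26

variable {V : Type*} [DecidableEq V]

section
variable {G : SimpleGraph V} {T : Finset V} {Fs : Finset (Finset V)} {J : Finset V → Finset V}
variable {Ex : V → V → Prop} {Γ : Dr V} {U : Bool → Finset ℚ} {D : Cov} {s : SD V}
variable {F F₁ F₂ : Finset (Finset V)} {at' al2 bt be2 : List V} {a c : V}
variable {yc Xs c0 ea lo s0 : ℚ} {Γb : Dr V} {Ub : Bool → Finset ℚ} {qs : List (Pl V)}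
variable {T₁ T₂ yc2 A' : ℚ} {Γ' : Dr V} {U' : Bool → Finset ℚ} {lc' c0' e' lo' s0' up : ℚ}

/-- the geometry of the new stage -/
theorem c2_SG (hc : Ctx G T Fs J) (hw : Wd G Γ U) (hD : Adm U D) (hG : SG Γ U D s)
    (hS : SC G T Fs J Ex Γ s F) (h : C2C T Fs s at' al2 bt be2 a c F F₁ F₂)
    (hP : P2St G J Γ U D s at' a yc Xs Γb Ub qs c0 ea lo s0)
    (hR : C2R G J Ex D s at' bt a c F₁ Xs T₁ T₂ Γb Ub Γ' U' lc' c0' e' lo' s0' up)
    (h4 : AdjF F a c) (hXd : s.Xd < Xs) (heX : s.l2.e < Xs) (hXw : Xs < s.Xw) (hYT : s.Y0 < T₁)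
    (hTc : T₁ < yc) (hcc : yc < yc2) (hcT : yc2 < T₂) (hTT : T₂ < s.Top) (hA1 : up < A')
    (hA2 : A' < Xs) :
    SG (Function.update Γ' a (Γ' a ⊔ c2E up Xs yc yc2)) U' D
      (c2s s al2 be2 a c up A' T₁ T₂ yc yc2 Xs lc' c0' e' lo' s0' c0 ea lo s0) := by
  have hdraw := c2_draw hc hG hS h hP hR h4 heX hYT hTc hcc hcT
  have hrowc := c2_rowc hG hP hR heX hYT hTc
  obtain ⟨Γ'', hΓ''⟩ : ∃ Γ'' : Dr V, Γ'' = Function.update Γ' a (Γ' a ⊔ c2E up Xs yc yc2) :=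
    ⟨_, rfl⟩
  rw [← hΓ''] at hdraw ⊢
  have hΓa : Γ'' a = Γ' a ⊔ c2E up Xs yc yc2 := by rw [hΓ'', Function.update_self]
  have hΓn : ∀ v, v ≠ a → Γ'' v = Γ' v := fun v hv => by
    rw [hΓ'', Function.update_of_ne hv]
  have hb := hP.step
  have hl1 := hG.line1
  have hl2 := hG.line2
  have hac : a ≠ c := h4.1
  have hΛ1 := hG.Λ1B
  have hΛ2 := hG.Λ2B
  have hBY := hG.BY
  have hΛ1b : s.l1.Λ ∈ Ub false := hb.sub _ (hG.Λ1U hw)
  have hΛ2b : s.l2.Λ ∈ Ub false := hb.sub _ (hG.Λ2U hw)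
  have hhi2 : s.l2.hi ≤ Xs := hl2.ok.h2.trans (hl2.ok.h3.trans (hl2.ok.h4.le.trans heX.le))
  have hc02 : s.l2.c0 ≤ Xs := hl2.ok.h4.le.trans heX.le
  have hcov : Γ' a = Γb a := hR.step.grow.eq (h.co_a hc hS)
  have hR1 : s.Xw ≤ s.l1.R := hl1.XR
  have hR2 : s.Xw ≤ s.l2.R := hl2.XR
  have hR1U : s.l1.R ∈ U true := hl1.col.mem (v := s.w) rfl hw.lines
    (hl1.ok.h6.trans_lt hl1.ok.h7)
  have hR2U : s.l2.R ∈ U true := hl2.col.mem (v := s.w) rfl hw.lines
    (hl2.ok.h6.trans_lt hl2.ok.h7)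
  -- growth of the windows
  have gv : ∀ (S : Set V) (l p q : ℚ), l ∈ Ub true → (q ≤ s.B ∨ T₁ ≤ p) →
      (l ≠ s.Xd ∨ s.l2.s1 ≤ p) → (l ≠ up ∨ q ≤ yc ∨ yc2 ≤ p) → SW Γb D S true l p q →
      SW Γ'' D S true l p q := by
    intro S l p q hl hx1 hx2 hx3 hsw
    refine (hsw.grow hR.step.grow ?_).grow hdraw.grow ?_
    · intro x hx hx'
      refine c2_c1 hl hl2.ok.h7.le ?_ ?_
      · exact hx1.imp (fun h6 => hx'.trans_le h6) (fun h6 => h6.trans_lt hx)
      · exact hx2.imp id fun h6 => h6.trans hx.le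
    · intro x hx hx' hE
      obtain ⟨h6, h7, h8⟩ := (mem_c2E_v hcc.le).1 hE
      rcases hx3 with h9 | h9 | h9
      · exact h9 h6
      · linarith
      · linarith
  have gh : ∀ (S : Set V) (l p q : ℚ), l ∈ Ub false → l < s.B → (l ≠ s.l2.Λ ∨ Xs ≤ p) →
      SW Γb D S false l p q → SW Γ'' D S false l p q := by
    intro S l p q hl hlB hx1 hsw
    refine (hsw.grow hR.step.grow ?_).grow hdraw.grow ?_
    · intro x hx hx'
      exact c2_c2 hl hl2.ok.h1.le hc02 hhi2 (Or.inl hlB) (hx1.imp id fun h6 => h6.trans hx.le)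
    · intro x hx hx' hE
      have h6 := ((mem_c2E_h hR.up2.le).1 hE).1
      linarith
  have rowE : ∀ x v, x ∈ Γ'' v false yc ↔ v = a ∧ up < x ∧ x < Xs := by
    intro x v
    by_cases hv : v = a
    · rw [hv, hΓa]
      constructor
      · rintro (h6 | h6)
        · exact absurd h6 (hrowc x a)
        · exact ⟨rfl, ((mem_c2E_h hR.up2.le).1 h6).2⟩
      · rintro ⟨-, h6⟩
        exact Or.inr ((mem_c2E_h hR.up2.le).2 ⟨rfl, h6⟩)
    · rw [hΓn v hv]
      exact ⟨fun h6 => absurd h6 (hrowc x v), fun h6 => absurd h6.1 hv⟩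
  have rowSW : ∀ p q, up ≤ p → q ≤ Xs → SW Γ'' D {a} false yc p q := by
    intro p q hp hq x hx hx'
    refine ⟨hD _ _ hP.ycU, fun v => ?_⟩
    rw [rowE, Set.mem_singleton_iff]
    exact ⟨fun h6 => h6.1, fun h6 => ⟨h6, hp.trans_lt hx, hx'.trans_le hq⟩⟩
  have colc : ∀ p q, T₁ ≤ p → q ≤ T₂ → (q ≤ yc ∨ yc2 ≤ p) → SW Γ'' D {c} true up p q := by
    intro p q hp hq hpq
    refine (hR.upc.sub hp hq).grow hdraw.grow ?_
    intro x hx hx' hE
    obtain ⟨h6, h7, h8⟩ := (mem_c2E_v hcc.le).1 hE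
    rcases hpq with h9 | h9 <;> linarith
  have hlineA : LineOK Γ'' D s.l1.ow s.l1.Λ a Xs c0 ea s.l1.R lo s.l1.hi s0 s.l1.s1 := by
    refine (hP.line.grow hR.step.grow ?_ ?_ ?_).grow hdraw.grow ?_ ?_ ?_
    · exact fun x _ _ => c2_c2 hΛ1b hl2.ok.h1.le hc02 hhi2 (Or.inl hΛ1) (Or.inl hG.ne)
    · exact fun x _ _ => c2_c2 hΛ1b hl2.ok.h1.le hc02 hhi2 (Or.inl hΛ1) (Or.inl hG.ne)
    · exact fun x _ hx => c2_c1 hP.XsUb hl2.ok.h7.le (Or.inl (hx.trans_le hl1.sB))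
        (Or.inl hXd.ne')
    · intro x _ _ hE
      have h6 := ((mem_c2E_h hR.up2.le).1 hE).1
      linarith
    · intro x _ _ hE
      have h6 := ((mem_c2E_h hR.up2.le).1 hE).1
      linarith
    · intro x _ _ hE
      have h6 := ((mem_c2E_v hcc.le).1 hE).1
      exact hR.up2.ne' h6
  have hlineC : LineOK Γ'' D s.l2.ow s.l2.Λ c lc' c0' e' s.l2.R lo' s.l2.hi s0' s.l2.s1 := by
    refine hR.line.grow hdraw.grow ?_ ?_ ?_
    · intro x _ _ hE
      have h6 := ((mem_c2E_h hR.up2.le).1 hE).1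
      linarith
    · intro x _ _ hE
      have h6 := ((mem_c2E_h hR.up2.le).1 hE).1
      linarith
    · intro x _ hx hE
      have h6 := ((mem_c2E_v hcc.le).1 hE).2.1
      have h7 := hl2.sB
      linarith
  have hTB : s.B < T₁ := hBY.trans hYT
  exact {
    o1 := hA1
    o2 := le_rfl
    o3 := hA2
    o4 := hXw
    o5 := (hcc.trans hcT).trans hTT
    ordL := hTc
    zcol := colc _ _ le_rfl (hcc.trans hcT).le (Or.inl le_rfl)
    top := rowSW _ _ le_rfl hA2.le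
    black := fun r hr => absurd hr List.not_mem_nil
    pl := fun r hr => absurd hr List.not_mem_nil
    bbase := rowSW _ _ hA1.le le_rfl
    YD := fun x => hD _ _ hP.ycU
    row := fun x hx _ v hv => absurd ((rowE x v).1 hv).2.2 (not_lt.2 hx)
    dcol := by
      refine gv _ _ _ _ hP.XsUb (Or.inr le_rfl) (Or.inl hXd.ne') (Or.inl hR.up2.ne') ?_
      intro x hx hx'
      refine ⟨hD _ _ hP.XsU, fun v => ⟨fun hv => hP.priv x v (hTB.trans hx).le hv, fun hv => ?_⟩⟩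
      rw [Set.mem_singleton_iff.1 hv]
      show x ∈ Γb a true Xs
      rw [hP.cova]
      have h6 : s.l1.Λ < x := (hΛ1.trans hTB).trans hx
      exact Or.inr ((LineB_mem (h6.trans hx').le).2 ⟨rfl, rfl, h6, hx'⟩)
    wcol := by
      refine gv _ _ _ _ (hb.sub _ (hG.XwU hw)) (Or.inr le_rfl) (Or.inl hG.o4.ne')
        (Or.inl (hR.up2.trans hXw).ne') ?_
      exact (hG.wcol.sub hTB.le le_rfl).grow hb.grow fun x _ _ =>
        c2_g1 (hG.XwU hw) (Or.inl (hG.lc1.trans hG.o4).ne')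
    line1 := {
      ok := hlineC
      eX := hR.eX.trans hXw
      XR := hR2
      sB := hl2.sB.trans hTB.le
      nr := hl2.nr
      row := by
        refine gh _ _ _ _ hΛ2b hΛ2 (Or.inr (hXw.le.trans hR2)) ?_
        exact hl2.row.grow hb.grow fun x _ _ => c2_g2 (hG.Λ2U hw) (Or.inl hG.ne.symm)
      col := by
        refine gv _ _ _ _ (hb.sub _ hR2U) (Or.inl hl2.sB) (Or.inl (hG.o4.trans_le hR2).ne')
          (Or.inl ((hR.up2.trans hXw).trans_le hR2).ne') ?_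
        exact hl2.col.grow hb.grow fun x _ _ =>
          c2_g1 hR2U (Or.inl ((hG.lc1.trans hG.o4).trans_le hR2).ne')
      ext := by
        show Ext s.l2.Λ e' (Γ'' c)
        rw [hΓn c hac.symm]
        exact hR.ext }
    line2 := {
      ok := hlineA
      eX := hP.eX
      XR := hR1
      sB := hl1.sB.trans hTB.le
      nr := hl1.nr
      row := by
        refine gh _ _ _ _ hΛ1b hΛ1 (Or.inl hG.ne) ?_
        exact hl1.row.grow hb.grow fun x hx _ => c2_g2 (hG.Λ1U hw) (Or.inr (hR1.trans hx.le))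
      col := by
        refine gv _ _ _ _ (hb.sub _ hR1U) (Or.inl hl1.sB) (Or.inl (hG.o4.trans_le hR1).ne')
          (Or.inl ((hR.up2.trans hXw).trans_le hR1).ne') ?_
        exact hl1.col.grow hb.grow fun x _ _ =>
          c2_g1 hR1U (Or.inl ((hG.lc1.trans hG.o4).trans_le hR1).ne')
      ext := by
        show Ext s.l1.Λ ea (Γ'' a)
        rw [hΓa, hcov, hP.cova]
        have h6 := LineB_ext6 (Λ := s.l1.Λ) (e' := ea) (X := Xs) (Y := yc) (g := up) (T := yc2)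
          hP.Xea (by linarith) hR.up2.ne' hcc.ne (Or.inl hR.up2)
        have h7 : seg false s.l1.Λ Xs ea ⊔ seg true Xs s.l1.Λ yc ⊔ c2E up Xs yc yc2 =
            seg false s.l1.Λ Xs ea ⊔ seg true Xs s.l1.Λ yc ⊔ seg false yc up Xs ⊔
              seg true up yc yc2 := by
          unfold c2E
          ac_rfl
        rw [h7]
        exact h6 }
    e1 := hR.eX
    lc2 := rfl
    ne := hG.ne.symm
    ztop := fun _ => ⟨hcc.le, hcT, hTT.le, colc _ _ (hTc.trans hcc).le le_rfl (Or.inr le_rfl)⟩ }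

end

end EPG26
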