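import Pool.Agent.W_26e041_h22.StC2F

/-!
Stage reduction C2: the combinatorics of the new stage and the conclusion.
-/

namespace EPG26

variable {V : Type*} [DecidableEq V]

section
variable {G : SimpleGraph V} {T : Finset V} {Fs : Finset (Finset V)} {J : Finset V → Finset V}
variable {Ex : V → V → Prop} {Γ : Dr V} {U : Bool → Finset ℚ} {D : Cov} {s : SD V}
variable {F F₁ F₂ : Finset (Finset V)} {at' al2 bt be2 : List V} {a c : V}
variable {yc Xs c0 ea lo s0 : ℚ} {Γb : Dr V} {Ub : Bool → Finset ℚ} {qs : List (Pl V)}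
variable {T₁ T₂ yc2 A' : ℚ} {Γ' : Dr V} {U' : Bool → Finset ℚ} {lc' c0' e' lo' s0' up : ℚ}

theorem c2s_bd : (c2s s al2 be2 a c up A' T₁ T₂ yc yc2 Xs lc' c0' e' lo' s0' c0 ea lo s0).bd =
    c2bd2 s al2 be2 a c := rfl

theorem c2s_fc : (c2s s al2 be2 a c up A' T₁ T₂ yc yc2 Xs lc' c0' e' lo' s0' c0 ea lo s0).fc F₂ =
    c2G2 s al2 be2 a c F₂ := rfl

theorem c2s_K : (c2s s al2 be2 a c up A' T₁ T₂ yc yc2 Xs lc' c0' e' lo' s0' c0 ea lo s0).K J F₂ =
    c2K' J s al2 be2 a c F₂ := by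
  ext v
  constructor
  · rintro (h | h | h | h | h | h | h)
    · exact Or.inl h
    · exact absurd h List.not_mem_nil
    · exact Or.inr (Or.inl h)
    · exact Or.inr (Or.inr (Or.inl h))
    · exact Or.inr (Or.inr (Or.inr (Or.inl h)))
    · exact Or.inr (Or.inr (Or.inr (Or.inr (Or.inl h))))
    · exact Or.inr (Or.inr (Or.inr (Or.inr (Or.inr h))))
  · rintro (h | h | h | h | h | h)
    · exact Or.inl h
    · exact Or.inr (Or.inr (Or.inl h))
    · exact Or.inr (Or.inr (Or.inr (Or.inl h)))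
    · exact Or.inr (Or.inr (Or.inr (Or.inr (Or.inl h))))
    · exact Or.inr (Or.inr (Or.inr (Or.inr (Or.inr (Or.inl h)))))
    · exact Or.inr (Or.inr (Or.inr (Or.inr (Or.inr (Or.inr h)))))

/-- the vertices drawn so far -/
theorem c2K_iff {v : V} : v ∈ c2K J s at' bt a c F₁ ↔ v = a ∨ v = s.z ∨
    v ∈ coK J s at' bt a c F₁ ∨ ∃ f ∈ fanF s.l1.ow (s.z :: at' ++ [a]), v ∈ J f := by
  constructor
  · rintro (h | h | h | h | h | h | h | h | h | h)
    · exact Or.inr (Or.inr (Or.inl (Or.inl h)))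
    · exact Or.inr (Or.inr (Or.inl (Or.inr (Or.inl h))))
    · exact Or.inr (Or.inl h)
    · exact Or.inr (Or.inr (Or.inl (Or.inr (Or.inr (Or.inl h)))))
    · exact Or.inr (Or.inr (Or.inl (Or.inr (Or.inr (Or.inr (Or.inl h))))))
    · exact Or.inl h
    · exact Or.inr (Or.inr (Or.inl (Or.inr (Or.inr (Or.inr (Or.inr (Or.inl h)))))))
    · exact Or.inr (Or.inr (Or.inl (Or.inr (Or.inr (Or.inr (Or.inr (Or.inr (Or.inl h))))))))
    · exact Or.inr (Or.inr (Or.inr h))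
    · exact Or.inr (Or.inr (Or.inl (Or.inr (Or.inr (Or.inr (Or.inr (Or.inr (Or.inr h))))))))
  · rintro (h | h | (h | h | h | h | h | h | h) | h)
    · exact Or.inr (Or.inr (Or.inr (Or.inr (Or.inr (Or.inl h)))))
    · exact Or.inr (Or.inr (Or.inl h))
    · exact Or.inl h
    · exact Or.inr (Or.inl h)
    · exact Or.inr (Or.inr (Or.inr (Or.inl h)))
    · exact Or.inr (Or.inr (Or.inr (Or.inr (Or.inl h))))
    · exact Or.inr (Or.inr (Or.inr (Or.inr (Or.inr (Or.inr (Or.inl h))))))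
    · exact Or.inr (Or.inr (Or.inr (Or.inr (Or.inr (Or.inr (Or.inr (Or.inl h)))))))
    · exact Or.inr (Or.inr (Or.inr (Or.inr (Or.inr (Or.inr (Or.inr (Or.inr (Or.inr h))))))))
    · exact Or.inr (Or.inr (Or.inr (Or.inr (Or.inr (Or.inr (Or.inr (Or.inr (Or.inl h))))))))

/-- the whole step -/
theorem c2_step (hc : Ctx G T Fs J) (hD : Adm U D) (hG : SG Γ U D s)
    (hS : SC G T Fs J Ex Γ s F) (h : C2C T Fs s at' al2 bt be2 a c F F₁ F₂)
    (hP : P2St G J Γ U D s at' a yc Xs Γb Ub qs c0 ea lo s0)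
    (hR : C2R G J Ex D s at' bt a c F₁ Xs T₁ T₂ Γb Ub Γ' U' lc' c0' e' lo' s0' up)
    (h4 : AdjF F a c) (heX : s.l2.e < Xs) (hYT : s.Y0 < T₁) (hTc : T₁ < yc) (hcc : yc < yc2)
    (hcT : yc2 < T₂) :
    Step G Γ U D (c2K J s at' bt a c F₁) (Function.update Γ' a (Γ' a ⊔ c2E up Xs yc yc2)) U' := by
  have hdraw := c2_draw hc hG hS h hP hR h4 heX hYT hTc hcc hcT
  refine ((hP.step.weaken inf_le_left ?_).trans (hR.step.weaken inf_le_left ?_)).trans
    (hdraw.weaken ?_ ?_)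
  · rintro v (h1 | h1 | h1)
    · exact c2K_iff.2 (Or.inr (Or.inl h1))
    · rcases List.mem_append.1 h1 with h2 | h2
      · exact c2K_iff.2 (Or.inr (Or.inr (Or.inl (Or.inr (Or.inr (Or.inr (Or.inl h2)))))))
      · exact c2K_iff.2 (Or.inl (by simpa using h2))
    · exact c2K_iff.2 (Or.inr (Or.inr (Or.inr h1)))
  · exact fun v hv => c2K_iff.2 (Or.inr (Or.inr (Or.inl hv)))
  · intro o l x hx
    cases o with
    | false =>
      rw [((mem_c2E_h hR.up2.le).1 hx).1]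
      exact hD _ _ hP.ycU
    | true =>
      rw [((mem_c2E_v hcc.le).1 hx).1]
      exact hD _ _ fun h6 => hR.upU (hP.step.sub _ h6)
  · rintro v hv
    exact c2K_iff.2 (Or.inl hv)

/-- the combinatorics of the new stage -/
theorem c2_SC (hc : Ctx G T Fs J) (hS : SC G T Fs J Ex Γ s F)
    (h : C2C T Fs s at' al2 bt be2 a c F F₁ F₂) {Γ'' : Dr V} {U'' : Bool → Finset ℚ}
    (hst : Step G Γ U D (c2K J s at' bt a c F₁) Γ'' U'') (hac : Ov Γ'' c a) :
    SC G T Fs J Ex Γ'' (c2s s al2 be2 a c up A' T₁ T₂ yc yc2 Xs lc' c0' e' lo' s0' c0 ea lo s0)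
      F₂ := by
  have hund : ∀ v, v ∈ verts (c2bd2 s al2 be2 a c) F₂ ∧ v ∉ c2bd2 s al2 be2 a c ∨ v ∈ be2 ∨
      v ∈ al2 ∨ (∃ f ∈ c2G2 s al2 be2 a c F₂, v ∈ J f) → Undrawn Γ'' v := by
    intro v hv
    obtain ⟨h1, h2⟩ := h.und' hc hS hv
    exact Undrawn.grow hst.grow h1 h2
  have hA : s.z :: s.al ++ [s.w] = (s.z :: at') ++ (a :: al2 ++ [s.w]) := by
    rw [h.ha]
    simp
  have hB : s.d :: s.be ++ [s.w] = (s.d :: bt) ++ (c :: be2 ++ [s.w]) := by
    rw [h.hb]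
    simp
  have ln1 := hS.ln1
  have ln2 := hS.ln2
  rw [hA] at ln1
  rw [hB] at ln2
  exact {
    reg := h.reg2
    chB := by
      intro p x y q w t hl
      have h1 := congrArg List.length hl
      simp [c2s, rv] at h1
      omega
    chA := (hS.chD.infx ⟨s.d :: bt, [], by rw [hB]; simp [c2s]⟩).mono h.F2
    chD := (hS.chA.infx ⟨s.z :: at', [], by rw [hA]; simp [c2s]⟩).mono h.F2
    z1 := fun v hv => absurd hv List.not_mem_nil
    z2 := fun _ _ _ _ v hv => absurd hv List.not_mem_nil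
    zb := fun h1 => absurd h1 (by simp [c2s])
    ln1 := (List.isChain_append.1 ln2).2.1
    ln2 := (List.isChain_append.1 ln1).2.1
    dj1 := hS.dj2.mono h.F2 h.fan2b_sub
    dj2 := hS.dj1.mono h.F2 h.fan1b_sub
    dj3 := (hS.dj3.mono h.fan1b_sub h.fan2b_sub).symm
    nd := by
      have hnd := hS.nd
      obtain ⟨h1, h2⟩ := List.nodup_cons.1 hnd
      obtain ⟨h3, -⟩ := List.nodup_cons.1 h2
      rw [List.mem_cons, not_or] at h1
      refine List.nodup_cons.2 ⟨?_, List.nodup_cons.2 ⟨?_, h.reg2.disc.nodup⟩⟩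
      · rw [List.mem_cons, not_or]
        exact ⟨fun h6 => h1.1 h6.symm, fun h6 => h3 (h.bd_iff.2 (Or.inr h6))⟩
      · exact fun h6 => h1.2 (h.bd_iff.2 (Or.inr h6))
    ow1 := fun h6 => hS.ow2 (h.v2 h6)
    ow2 := fun h6 => hS.ow1 (h.v2 h6)
    und := fun v hv => hund v hv
    rL := List.isChain_singleton a
    rz2 := Or.inr hac
    lk := fun _ h1 => absurd rfl h1 }

end

/-- Let `al = at' ++ a :: al2`, `be = bt ++ c :: be2`, `AdjF F a c`, no vertex of `z :: at'` is adjacent to a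
vertex of `be`, `a` is not adjacent to `d` and to the vertices of `bt`. -/
theorem stage_c2_main {G : SimpleGraph V} {T : Finset V} {Fs : Finset (Finset V)}
    {J : Finset V → Finset V} {Ex : V → V → Prop} (hc : Ctx G T Fs J)
    (hE : ∀ u v, Ex u v → Ex v u) {Γ : Dr V} {U : Bool → Finset ℚ} {D : Cov} {s : SD V}
    {F : Finset (Finset V)} (hw : Wd G Γ U) (hD : Adm U D) (hG : SG Γ U D s)
    (hS : SC G T Fs J Ex Γ s F) {at' al2 bt be2 : List V} {a c : V}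
    (ha : s.al = at' ++ a :: al2) (hb : s.be = bt ++ c :: be2)
    (h1 : ∀ v ∈ s.be, ¬ AdjF F s.z v) (h2 : ∀ p ∈ at', ∀ v ∈ s.be, ¬ AdjF F p v)
    (h3 : ∀ v ∈ bt, ¬ AdjF F a v) (h4 : AdjF F a c) (h5 : ¬ AdjF F a s.d) :
    ∃ Γ₁ U₁ s' F', F'.card < F.card ∧ (∀ o, U o ⊆ U₁ o) ∧ Wd G Γ₁ U₁ ∧ SG Γ₁ U₁ D s' ∧
      SC G T Fs J Ex Γ₁ s' F' ∧ (SDone G J Ex Γ₁ U₁ D s' F' → SDone G J Ex Γ U D s F) := by
  obtain ⟨F₁, F₂, h⟩ := c2_split hS ha hb h4
  obtain ⟨T₁, hT1, hT2⟩ := exists_between hG.o5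
  obtain ⟨yb, hyb1, hyb2⟩ := exists_between hT2
  have hl2 := hG.line2
  obtain ⟨yc, Xs, Γb, Ub, qs, c0, ea, lo, s0, k1, k2, k3, k4, hP⟩ :=
    stage_p2 (p := max s.Xd s.l2.e) (q := s.Xw) (α := T₁) (β := yb) hc hw hD hG hS ha
      (max_lt hG.o4 hl2.eX) (le_max_left _ _) le_rfl hyb1 (hG.BY.trans hT1).le
  have hXd : s.Xd < Xs := (le_max_left _ _).trans_lt k1
  have heX : s.l2.e < Xs := (le_max_right _ _).trans_lt k1
  obtain ⟨yc2, hc1, hc2⟩ := exists_between k4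
  obtain ⟨T₂, hT3, hT4⟩ : ∃ T₂, yc2 < T₂ ∧ T₂ < s.Top := ⟨yb, hc2, hyb2⟩
  have hTT : T₁ < T₂ := (k3.trans hc1).trans hT3
  obtain ⟨Γ', U', lc', c0', e', lo', s0', up, hR⟩ :=
    c2_core (T₁ := T₁) (T₂ := T₂) hc hE hw hD hG hS h hP h1 h2 h3 h5 hXd heX k2 hT1 k3 hTT
  obtain ⟨A', hA1, hA2⟩ := exists_between hR.up2
  have hdraw := c2_draw hc hG hS h hP hR h4 heX hT1 k3 hc1 hT3
  have hstep := c2_step hc hD hG hS h hP hR h4 heX hT1 k3 hc1 hT3
  have hSG := c2_SG (A' := A') hc hw hD hG hS h hP hR h4 hXd heX k2 hT1 k3 hc1 hT3 hT4 hA1 hA2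
  obtain ⟨Γ'', hΓ''⟩ : ∃ Γ'' : Dr V, Γ'' = Function.update Γ' a (Γ' a ⊔ c2E up Xs yc yc2) :=
    ⟨_, rfl⟩
  rw [← hΓ''] at hdraw hstep hSG
  have hΓa : Γ'' a = Γ' a ⊔ c2E up Xs yc yc2 := by rw [hΓ'', Function.update_self]
  have hΓn : ∀ v, v ≠ a → Γ'' v = Γ' v := fun v hv => by
    rw [hΓ'', Function.update_of_ne hv]
  have hac : Ov Γ'' c a := by
    obtain ⟨x, hx1, hx2⟩ := exists_between hc1
    refine ⟨true, up, x, ?_, ?_⟩
    · rw [hΓn c h4.1.symm]
      exact ((hR.upc x (k3.trans hx1) (hx2.trans hT3)).2 c).2 rfl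
    · rw [hΓa]
      exact Or.inr ((mem_c2E_v hc1.le).2 ⟨rfl, hx1, hx2⟩)
  have hSC := c2_SC (A' := A') (T₁ := T₁) (T₂ := T₂) (yc := yc) (yc2 := yc2) (Xs := Xs)
    (lc' := lc') (c0' := c0') (e' := e') (lo' := lo') (s0' := s0') (up := up) (c0 := c0)
    (ea := ea) (lo := lo) (s0 := s0) hc hS h hstep hac
  refine ⟨Γ'', U', _, F₂, h.card, hstep.sub, hstep.wd, hSG, hSC, ?_⟩
  refine stage_close hstep h.K_sub ?_ ?_ ?_
  · rw [c2s_K]
    exact h.K'_sub
  · intro v hv hv'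
    rw [c2s_K] at hv'
    have hva : v ≠ a := by
      rintro rfl
      exact hv' (Or.inr (Or.inr (Or.inl rfl)))
    have hvc : v ≠ c := by
      rintro rfl
      exact hv' (Or.inr (Or.inl rfl))
    rw [hΓn v hva]
    rcases h.K_cov hv with h6 | h6
    · rcases c2K_iff.1 h6 with h7 | h7 | h7 | ⟨f, hf, h7⟩
      · exact absurd h7 hva
      · subst h7
        rw [hR.step.grow.eq (h.co_z hc hS)]
        obtain ⟨sz, h8, h9⟩ := hP.z
        rw [h9]
        exact (hG.line1.ext.extend h8).path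
      · exact hR.path v h7 hvc
      · rw [hR.step.grow.eq (h.co_fan1 hc hS hf h7)]
        exact (hP.fill f hf v h7).1
    · exact absurd h6 hv'
  · intro f hf hf'
    rw [c2s_fc] at hf'
    rcases h.fc_iff'.1 hf with h6 | h6
    · have hK' : ∀ v ∈ J f, v ∉ c2K' J s al2 be2 a c F₂ := fun v hv => h.G1_K' hc hS h6 hv
      have hna : ∀ v ∈ J f, v ∉ ({a} : Set V) := by
        intro v hv hva
        exact hK' v hv (Or.inr (Or.inr (Or.inl hva)))
      have key : f ∈ F₁ ∪ fanF s.l2.ow (s.d :: bt ++ [c]) →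
          Filled G Γ'' (J f) ∧ (∀ v ∈ J f, v ∉ c2K' J s al2 be2 a c F₂) ∧
            ∀ p ∈ f, ∀ q ∈ f, p ≠ q → Rz Ex Γ'' p q := by
        intro h7
        refine ⟨(hR.fill f h7).mono hdraw.grow hna, hK', ?_⟩
        intro p hp q hq hpq
        rcases (hR.rz f h7 p hp q hq hpq).mono hdraw.grow with (h8 | ⟨h8, h9⟩ | ⟨h8, h9⟩) | h8
        · exact Or.inl h8
        · rw [h8, h9]
          exact Or.inr hac
        · rw [h8, h9]
          exact Or.inr hac.symm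
        · exact Or.inr h8
      rw [c2s_K]
      rcases Finset.mem_union.1 h6 with h7 | h7
      · exact key (Finset.mem_union_left _ h7)
      · rcases Finset.mem_union.1 h7 with h7 | h7
        · refine ⟨?_, hK', ?_⟩
          · exact ((hP.fill f h7).mono hR.step.grow fun v hv => h.co_fan1 hc hS h7 hv).mono
              hdraw.grow hna
          · intro p hp q hq hpq
            have h8 := fan_ov hP.chain hP.ow f h7 p hp q hq hpq
            exact Or.inr ((h8.mono hR.step.grow).mono hdraw.grow)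
        · exact key (Finset.mem_union_right _ h7)
    · exact absurd h6 hf'

end EPG26
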