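import Pool.Agent.W_26e041_h22.StageM

/-!
Shared part of the stage files: vertices, faces and contents of a stage; the end of a reduction.
-/

namespace EPG26

variable {V : Type*} [DecidableEq V]

/-! ### fans -/

theorem fanF_append {ow a : V} {l m : List V} :
    fanF ow (l ++ a :: m) = fanF ow (l ++ [a]) ∪ fanF ow (a :: m) := by
  induction l with
  | nil => simp [fanF]
  | cons x t ih =>
    cases t with
    | nil => simp [fanF]
    | cons y t =>
      have h1 : fanF ow (x :: y :: t ++ a :: m) = insert {ow, x, y} (fanF ow (y :: t ++ a :: m)) := rfl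
      have h2 : fanF ow (x :: y :: t ++ [a]) = insert {ow, x, y} (fanF ow (y :: t ++ [a])) := rfl
      rw [h1, h2, ih, Finset.insert_union]

theorem fanF_sub {ow : V} {l : List V} {Fs : Finset (Finset V)}
    (h : List.IsChain (fun p q => ({ow, p, q} : Finset V) ∈ Fs) l) : fanF ow l ⊆ Fs := by
  intro f hf
  obtain ⟨p, a, b, t, rfl, rfl⟩ := DiscH_mem_fanF.1 hf
  exact (List.isChain_append.1 h).2.1 |> fun h1 => (List.isChain_cons_cons.1 h1).1

theorem fanF_mem {ow : V} {l : List V} {f : Finset V} (hf : f ∈ fanF ow l) {v : V} (hv : v ∈ f) :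
    v = ow ∨ v ∈ l := by
  obtain ⟨p, a, b, t, rfl, rfl⟩ := DiscH_mem_fanF.1 hf
  simp only [Finset.mem_insert, Finset.mem_singleton] at hv
  rcases hv with hv | hv | hv
  · exact Or.inl hv
  · exact Or.inr (by simp [hv])
  · exact Or.inr (by simp [hv])

theorem fanF_disj {ow a : V} {l m : List V} (hnd : (ow :: (l ++ a :: m)).Nodup) :
    Disjoint (fanF ow (l ++ [a])) (fanF ow (a :: m)) := by
  rw [Finset.disjoint_left]
  intro f hf hf'
  obtain ⟨p, x, y, t, h1, h2⟩ := DiscH_mem_fanF.1 hf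
  have hx1 : x ∈ l ++ [a] := by rw [h1]; simp
  have hy1 : y ∈ l ++ [a] := by rw [h1]; simp
  have hxf : x ∈ f := by rw [h2]; simp
  have hyf : y ∈ f := by rw [h2]; simp
  have hnd' := List.nodup_cons.1 hnd
  have hsub : ∀ v ∈ l ++ [a], v ∈ l ++ a :: m := by
    intro v hv
    simp only [List.mem_append, List.mem_cons, List.not_mem_nil, or_false] at hv ⊢
    tauto
  have key : ∀ v ∈ l ++ [a], v ∈ f → v = a := by
    intro v hv hvf
    have hvo : v ≠ ow := fun h => hnd'.1 (h ▸ hsub v hv)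
    rcases fanF_mem hf' hvf with h3 | h3
    · exact absurd h3 hvo
    · rcases List.mem_append.1 hv with h4 | h4
      · exfalso
        exact (List.nodup_append.1 hnd'.2).2.2 v h4 v h3 rfl
      · simpa using h4
  have hxy : x ≠ y := by
    have h3 : (l ++ [a]).Nodup := by
      have h4 : (l ++ [a]) <+: (l ++ a :: m) := ⟨m, by simp⟩
      exact hnd'.2.sublist h4.sublist
    rw [h1] at h3
    have h4 := (List.nodup_append.1 h3).2.1
    intro h5
    rw [h5] at h4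
    simp at h4
  exact hxy ((key x hx1 hxf).trans (key y hy1 hyf).symm)

/-! ### facts about the vertices of a stage -/

section facts
variable {G : SimpleGraph V} {T : Finset V} {Fs : Finset (Finset V)} {J : Finset V → Finset V}
variable {Ex : V → V → Prop} {Γ : Dr V} {s : SD V} {F : Finset (Finset V)}

theorem SC.vert_face (hS : SC G T Fs J Ex Γ s F) {v : V} (hv : v ∈ verts s.bd F) :
    ∃ g ∈ Fs, v ∈ g := by
  have hlen : 3 ≤ s.bd.length := by
    unfold SD.bd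
    simp only [List.length_append, List.length_cons, List.length_nil]
    omega
  rcases Finset.mem_union.1 hv with h | h
  · obtain ⟨g, hg, hvg⟩ := Finset.mem_biUnion.1
      (hS.reg.disc.mem_biUnion hlen (List.mem_toFinset.1 h))
    exact ⟨g, hS.reg.sub hg, hvg⟩
  · obtain ⟨g, hg, hvg⟩ := Finset.mem_biUnion.1 h
    exact ⟨g, hS.reg.sub hg, hvg⟩

theorem SC.fan1_sub (hS : SC G T Fs J Ex Γ s F) : fanF s.l1.ow (s.z :: s.al ++ [s.w]) ⊆ Fs :=
  fanF_sub hS.ln1

theorem SC.fan2_sub (hS : SC G T Fs J Ex Γ s F) : fanF s.l2.ow (s.d :: s.be ++ [s.w]) ⊆ Fs :=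
  fanF_sub hS.ln2

theorem SC.fc_sub (hS : SC G T Fs J Ex Γ s F) : s.fc F ⊆ Fs :=
  Finset.union_subset hS.reg.sub (Finset.union_subset hS.fan1_sub hS.fan2_sub)

theorem StageK_ow {ow x y : V} {l : List V} {Fs : Finset (Finset V)}
    (h : List.IsChain (fun p q => ({ow, p, q} : Finset V) ∈ Fs) (x :: l ++ [y])) :
    ∃ g ∈ Fs, ow ∈ g ∧ x ∈ g := by
  cases l with
  | nil => exact ⟨_, (List.isChain_cons_cons.1 h).1, by simp, by simp⟩
  | cons a t => exact ⟨_, (List.isChain_cons_cons.1 h).1, by simp, by simp⟩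

/-- contents of faces contain no vertices of the stage -/
theorem SC.cont (hc : Ctx G T Fs J) (hS : SC G T Fs J Ex Γ s F) {f : Finset V} (hf : f ∈ Fs)
    {v : V} (hv : v ∈ J f) : v ∉ verts s.bd F ∧ v ≠ s.l1.ow ∧ v ≠ s.l2.ow := by
  refine ⟨fun h => ?_, ?_, ?_⟩
  · obtain ⟨g, hg, hvg⟩ := hS.vert_face h
    exact Finset.disjoint_left.1 (hc.sep f hf g hg) hv hvg
  · rintro rfl
    obtain ⟨g, hg, hvg, -⟩ := StageK_ow hS.ln1
    exact Finset.disjoint_left.1 (hc.sep f hf g hg) hv hvg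
  · rintro rfl
    obtain ⟨g, hg, hvg, -⟩ := StageK_ow hS.ln2
    exact Finset.disjoint_left.1 (hc.sep f hf g hg) hv hvg

theorem SC.cont_bd (hc : Ctx G T Fs J) (hS : SC G T Fs J Ex Γ s F) {f : Finset V} (hf : f ∈ Fs)
    {v : V} (hv : v ∈ J f) : v ∉ s.bd :=
  fun h => (hS.cont hc hf hv).1 (DiscA_mem_verts_left h)

/-- the vertices on the line 1 are adjacent to its owner -/
theorem StageK_adj (hc : Ctx G T Fs J) {ow : V} {l : List V}
    (h : List.IsChain (fun p q => ({ow, p, q} : Finset V) ∈ Fs) l) (hl : 2 ≤ l.length)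
    (how : ow ∉ l) {v : V} (hv : v ∈ l) : G.Adj v ow := by
  have hvo : v ≠ ow := fun h1 => how (h1 ▸ hv)
  obtain ⟨p, t, rfl⟩ := List.append_of_mem hv
  cases t with
  | cons b t =>
    have h1 := (List.isChain_cons_cons.1 (List.isChain_append.1 h).2.1).1
    exact hc.adj _ h1 v (by simp) ow (by simp) hvo
  | nil =>
    rcases List.eq_nil_or_concat p with h1 | ⟨p', b, h1⟩
    · subst h1
      simp at hl
    · subst h1
      have h2 : p' ++ [b] ++ [v] = p' ++ b :: [v] := by simp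
      rw [List.concat_eq_append, h2] at h
      have h3 := (List.isChain_cons_cons.1 (List.isChain_append.1 h).2.1).1
      exact hc.adj _ h3 v (by simp) ow (by simp) hvo

theorem SC.adj1 (hc : Ctx G T Fs J) (hS : SC G T Fs J Ex Γ s F) {v : V}
    (hv : v ∈ s.z :: s.al ++ [s.w]) : G.Adj v s.l1.ow := by
  refine StageK_adj hc hS.ln1 (by simp) ?_ hv
  intro h
  refine (List.nodup_cons.1 hS.nd).1 (List.mem_cons_of_mem _ ?_)
  unfold SD.bd
  simp only [List.mem_append, List.mem_cons, List.not_mem_nil, or_false, List.mem_reverse] at h ⊢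
  tauto

theorem SC.adj2 (hc : Ctx G T Fs J) (hS : SC G T Fs J Ex Γ s F) {v : V}
    (hv : v ∈ s.d :: s.be ++ [s.w]) : G.Adj v s.l2.ow := by
  refine StageK_adj hc hS.ln2 (by simp) ?_ hv
  intro h
  refine (List.nodup_cons.1 (List.nodup_cons.1 hS.nd).2).1 ?_
  unfold SD.bd
  simp only [List.mem_append, List.mem_cons, List.not_mem_nil, or_false, List.mem_reverse] at h ⊢
  tauto

/-- contents of different faces are disjoint -/
theorem StageK_cc (hc : Ctx G T Fs J) {A B : Finset (Finset V)} (hA : A ⊆ Fs) (hB : B ⊆ Fs)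
    (hd : Disjoint A B) {v : V} (h1 : ∃ f ∈ A, v ∈ J f) (h2 : ∃ f ∈ B, v ∈ J f) : False := by
  obtain ⟨f, hf, hvf⟩ := h1
  obtain ⟨g, hg, hvg⟩ := h2
  have hfg : f ≠ g := by
    rintro rfl
    exact Finset.disjoint_left.1 hd hf hg
  exact Finset.disjoint_left.1 (hc.disj f (hA hf) g (hB hg) hfg) hvf hvg

end facts

/-! ### parts of a region -/

section parts
variable {l l₁ l₂ : List V} {F F₁ F₂ : Finset (Finset V)}

theorem StageK_in (hl : ∀ v, v ∈ l → v ∈ l₁ ∨ v ∈ l₂) (hF : F₁ ⊆ F)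
    (hcom : ∀ v, v ∈ verts l₁ F₁ → v ∈ verts l₂ F₂ → v ∈ l₁) {v : V} (h1 : v ∈ verts l₁ F₁)
    (h2 : v ∉ l₁) : v ∈ verts l F ∧ v ∉ l := by
  constructor
  · rcases DiscB_mem_verts.1 h1 with h | ⟨f, hf, hvf⟩
    · exact absurd h h2
    · exact DiscB_mem_verts.2 (Or.inr ⟨f, hF hf, hvf⟩)
  · intro h
    rcases hl v h with h3 | h3
    · exact h2 h3
    · exact h2 (hcom v h1 (DiscA_mem_verts_left h3))

theorem StageK_out (hl : ∀ v, v ∈ l₁ ∨ v ∈ l₂ → v ∈ l) (hF : F = F₁ ∪ F₂) {v : V}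
    (h1 : v ∈ verts l F) (h2 : v ∉ l) :
    (v ∈ verts l₁ F₁ ∧ v ∉ l₁) ∨ (v ∈ verts l₂ F₂ ∧ v ∉ l₂) := by
  rcases DiscB_mem_verts.1 h1 with h | ⟨f, hf, hvf⟩
  · exact absurd h h2
  · rw [hF, Finset.mem_union] at hf
    rcases hf with hf | hf
    · exact Or.inl ⟨DiscB_mem_verts.2 (Or.inr ⟨f, hf, hvf⟩), fun h => h2 (hl v (Or.inl h))⟩
    · exact Or.inr ⟨DiscB_mem_verts.2 (Or.inr ⟨f, hf, hvf⟩), fun h => h2 (hl v (Or.inr h))⟩

end parts

/-! ### the end of a reduction -/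

/-- From the new stage to the old one. -/
theorem stage_close {G : SimpleGraph V} {J : Finset V → Finset V} {Ex : V → V → Prop}
    {Γ Γ₁ : Dr V} {U U₁ : Bool → Finset ℚ} {D : Cov} {s s' : SD V} {F F₂ : Finset (Finset V)}
    {K₁ : Set V} (hstep : Step G Γ U D K₁ Γ₁ U₁) (hK₁ : K₁ ⊆ s.K J F)
    (hK₂ : s'.K J F₂ ⊆ s.K J F) (hcov : ∀ v ∈ s.K J F, v ∉ s'.K J F₂ → IsPath3 (Γ₁ v))
    (hfc : ∀ f ∈ s.fc F, f ∉ s'.fc F₂ → Filled G Γ₁ (J f) ∧ (∀ v ∈ J f, v ∉ s'.K J F₂) ∧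
      ∀ p ∈ f, ∀ q ∈ f, p ≠ q → Rz Ex Γ₁ p q) :
    SDone G J Ex Γ₁ U₁ D s' F₂ → SDone G J Ex Γ U D s F := by
  rintro ⟨Γ', U', h1, h2, h3, h4⟩
  refine ⟨Γ', U', (hstep.weaken le_rfl hK₁).trans (h1.weaken le_rfl hK₂), ?_, ?_, ?_⟩
  · intro v hv
    by_cases hv' : v ∈ s'.K J F₂
    · exact h2 v hv'
    · rw [h1.grow.eq hv']
      exact hcov v hv hv'
  · intro f hf
    by_cases hf' : f ∈ s'.fc F₂
    · exact h3 f hf'
    · obtain ⟨h5, h6, -⟩ := hfc f hf hf'
      exact h5.mono h1.grow h6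
  · intro f hf p hp q hq hpq
    by_cases hf' : f ∈ s'.fc F₂
    · exact h4 f hf' p hp q hq hpq
    · exact ((hfc f hf hf').2.2 p hp q hq hpq).mono h1.grow

end EPG26
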