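import Pool.Agent.W_26e041_h61.StageA
import Pool.Agent.W_26e041_h61.RegA

/-!
Shared part of the stage files: the M-state of a stage after the placements on the first line.
-/

namespace EPG26

variable {V : Type*} [DecidableEq V]

/-! ### placed vertices of kind `dir` -/

/-- `q` is a placed vertex with a stub and a column up to `B`; above `B` its column is private -/
structure PlD (Γ : Dr V) (U : Bool → Finset ℚ) (D : Cov) (Λ B : ℚ) (q : Pl V) : Prop where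
  cov : ∃ es, q.X < es ∧ Γ q.v = seg false Λ q.X es ⊔ seg true q.X Λ B
  hX : q.X ∈ U true
  hg : q.g ∈ U true
  lX : ∀ x, B ≤ x → x ∈ D true q.X ∧ ∀ w, x ∈ Γ w true q.X → w = q.v

theorem Placed.plD {Γ : Dr V} {U : Bool → Finset ℚ} {D : Cov} {Λ B T₁ T₂ yl y₁ sh : ℚ} {q : Pl V}
    (h : Placed Γ U D Λ B T₁ T₂ yl y₁ sh q) (hk : q.k = Kind.dir) (hs : sh ≤ B) :
    PlD Γ U D Λ B q := by
  refine ⟨⟨q.es, h.es, ?_⟩, h.hX, h.hg, fun x hx => h.lX x (hs.trans hx)⟩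
  rw [h.cov]
  unfold Pl.cov
  rw [hk]

theorem PlD.grow {Γ Γ' : Dr V} {U U' : Bool → Finset ℚ} {D D₁ : Cov} {K : Set V} {Λ B : ℚ}
    {q : Pl V} (h : PlD Γ U D Λ B q) (hg : Grow Γ Γ' D₁ K) (hU : ∀ o, U o ⊆ U' o) (hv : q.v ∉ K)
    (h1 : ∀ x, B ≤ x → x ∉ D₁ true q.X) : PlD Γ' U' D Λ B q := by
  refine ⟨?_, hU _ h.hX, hU _ h.hg, fun x hx => ⟨(h.lX x hx).1, fun w hw => ?_⟩⟩
  · obtain ⟨es, h2, h3⟩ := h.cov
    exact ⟨es, h2, by rw [hg.eq hv, h3]⟩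
  · rcases hg.new w _ _ _ hw with h2 | h2
    · exact (h.lX x hx).2 w h2
    · exact absurd h2.2 (h1 x hx)

/-- The stub is extended (`LineOK.place` and `LineOK.join` for the last vertex). -/
theorem PlD.stub {Γ Γ' : Dr V} {U U' : Bool → Finset ℚ} {D D₁ : Cov} {K : Set V} {Λ B es s : ℚ}
    {q : Pl V} (h : PlD Γ U D Λ B q) (hg : Grow Γ Γ' D₁ K) (hU : ∀ o, U o ⊆ U' o)
    (hes : q.X < es) (hcov : Γ q.v = seg false Λ q.X es ⊔ seg true q.X Λ B) (hs : es ≤ s)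
    (hv : Γ' q.v = Γ q.v ⊔ hseg false Λ es s) (h1 : ∀ x, B ≤ x → x ∉ D₁ true q.X) :
    PlD Γ' U' D Λ B q := by
  refine ⟨⟨s, hes.trans_le hs, ?_⟩, hU _ h.hX, hU _ h.hg,
    fun x hx => ⟨(h.lX x hx).1, fun w hw => ?_⟩⟩
  · rw [hv, hcov, ← LineB_join (o := false) (l := Λ) hes hs]
    ac_rfl
  · rcases hg.new w _ _ _ hw with h2 | h2
    · exact (h.lX x hx).2 w h2
    · exact absurd h2.2 (h1 x hx)

/-- the pending record of a placed vertex -/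
def wrec (B : ℚ) (q : Pl V) : Rec V := ⟨q.v, q.X, q.g, B - 1, q.X + 1, true⟩

theorem rv_wrec (B : ℚ) (qs : List (Pl V)) : rv (qs.map (wrec B)) = qs.map Pl.v := by
  unfold rv
  rw [List.map_map]
  rfl

theorem OrdP.ordL {lo hi B : ℚ} {qs : List (Pl V)} (h : OrdP lo qs hi) :
    OrdL lo (qs.map (wrec B)) hi :=
  CoreG2_ordL (f := wrec B) (fun _ => rfl) (fun _ => rfl) h

/-! ### the allowed set -/

/-- The allowed set of the first machine of a stage: lines outside `U`, on the columns in `S` the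
positions `B ≤ x < Y0`, on the column `X0` the positions `B ≤ x < yu`, on the rows in `R` everything,
on the row `Y0` the positions `x < Xd` outside the link zone `(l₀, l₁)`. -/
def stD (U : Bool → Finset ℚ) (D : Cov) (S R : Finset ℚ) (B Y0 X0 yu Xd l₀ l₁ : ℚ) : Cov :=
  D ⊓ (nl U ⊔ fun o l => {x | if o then (l ∈ S ∧ B ≤ x ∧ x < Y0) ∨ (l = X0 ∧ B ≤ x ∧ x < yu)
    else l ∈ R ∨ (l = Y0 ∧ x < Xd ∧ ¬ (l₀ < x ∧ x < l₁))})

section stD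
variable {U : Bool → Finset ℚ} {D : Cov} {S R : Finset ℚ} {B Y0 X0 yu Xd l₀ l₁ : ℚ}

theorem mem_stD_v {l x : ℚ} : x ∈ stD U D S R B Y0 X0 yu Xd l₀ l₁ true l ↔
    x ∈ D true l ∧ (l ∉ U true ∨ (l ∈ S ∧ B ≤ x ∧ x < Y0) ∨ (l = X0 ∧ B ≤ x ∧ x < yu)) := by
  simp [stD, nl]

theorem mem_stD_h {l x : ℚ} : x ∈ stD U D S R B Y0 X0 yu Xd l₀ l₁ false l ↔
    x ∈ D false l ∧ (l ∉ U false ∨ l ∈ R ∨ (l = Y0 ∧ x < Xd ∧ ¬ (l₀ < x ∧ x < l₁))) := by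
  simp [stD, nl]

theorem stD_le : stD U D S R B Y0 X0 yu Xd l₀ l₁ ≤ D := fun _ _ _ h => h.1

theorem stD_adm (hD : Adm U D) : Adm U (stD U D S R B Y0 X0 yu Xd l₀ l₁) :=
  fun o l x h => ⟨hD o l h, Or.inl h⟩

/-- `h1` of `core` -/
theorem stD_Xd (hU : Xd ∈ U true) (hS : Xd ∉ S) (hX : Xd ≠ X0) (x : ℚ) :
    x ∉ stD U D S R B Y0 X0 yu Xd l₀ l₁ true Xd := by
  rw [mem_stD_v]
  rintro ⟨-, h | ⟨h, -⟩ | ⟨h, -⟩⟩
  · exact h hU
  · exact hS h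
  · exact hX h

/-- `h2` of `core` -/
theorem stD_Y0 (hU : Y0 ∈ U false) (hR : Y0 ∉ R) (x : ℚ)
    (h : x ∈ stD U D S R B Y0 X0 yu Xd l₀ l₁ false Y0) : x < Xd := by
  rw [mem_stD_h] at h
  rcases h with ⟨-, h | h | ⟨-, h, -⟩⟩
  · exact absurd hU h
  · exact absurd h hR
  · exact h

/-- `h3` of `core` -/
theorem stD_X0 (hU : X0 ∈ U true) (hy : yu ≤ Y0) (x : ℚ)
    (h : x ∈ stD U D S R B Y0 X0 yu Xd l₀ l₁ true X0) : x < Y0 := by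
  rw [mem_stD_v] at h
  rcases h with ⟨-, h | ⟨-, -, h⟩ | ⟨-, -, h⟩⟩
  · exact absurd hU h
  · exact h
  · exact h.trans_le hy

/-- `h4` of `core` -/
theorem stD_line {Λ : ℚ} (hU : Λ ∈ U false) (hR : Λ ∉ R) (hY : Λ ≠ Y0) (x : ℚ) :
    x ∉ stD U D S R B Y0 X0 yu Xd l₀ l₁ false Λ := by
  rw [mem_stD_h]
  rintro ⟨-, h | h | ⟨h, -⟩⟩
  · exact h hU
  · exact hR h
  · exact hY h

/-- `h5` of `core` -/
theorem stD_band {T₁ : ℚ} (hy : yu ≤ Y0) (hYT : Y0 < T₁) (hBY : B < Y0)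
    (hR : ∀ l ∈ R, B ≤ l ∧ l ≤ Y0) : ∀ o l x, x ∈ stD U D S R B Y0 X0 yu Xd l₀ l₁ o l →
    x ∈ (nl U ⊔ band B T₁) o l := by
  intro o l x h
  cases o with
  | true =>
    rw [mem_stD_v] at h
    rcases h with ⟨-, h | ⟨-, h1, h2⟩ | ⟨-, h1, h2⟩⟩
    · exact Or.inl h
    · exact Or.inr (CoreG2_bandv.2 ⟨h1, (h2.trans hYT).le⟩)
    · exact Or.inr (CoreG2_bandv.2 ⟨h1, ((h2.trans_le hy).trans hYT).le⟩)
  | false =>
    rw [mem_stD_h] at h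
    rcases h with ⟨-, h | h | ⟨h, -⟩⟩
    · exact Or.inl h
    · exact Or.inr (CoreG2_bandh.2 ⟨(hR l h).1, (hR l h).2.trans hYT.le⟩)
    · exact Or.inr (CoreG2_bandh.2 ⟨by rw [h]; exact hBY.le, by rw [h]; exact hYT.le⟩)

end stD

/-- the rows of the pending black vertices -/
def rowsL (L : List (Rec V)) : Finset ℚ := (L.map Rec.c).toFinset

theorem mem_rowsL {L : List (Rec V)} {l : ℚ} : l ∈ rowsL L ↔ ∃ r ∈ L, r.c = l := by
  simp [rowsL]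

theorem rowsL_bd {L : List (Rec V)} {B Y : ℚ} (h : OrdL B L Y) {l : ℚ} (hl : l ∈ rowsL L) :
    B < l ∧ l < Y := by
  obtain ⟨r, hr, rfl⟩ := mem_rowsL.1 hl
  obtain ⟨h1, h2, h3⟩ := h.mem hr
  exact ⟨h1.trans h2, h3⟩

/-- the columns of `z` and of the placed vertices -/
def colsQ (Xz : ℚ) (qs : List (Pl V)) : Finset ℚ := insert Xz (qs.map Pl.X).toFinset

theorem mem_colsQ {Xz : ℚ} {qs : List (Pl V)} {l : ℚ} :
    l ∈ colsQ Xz qs ↔ l = Xz ∨ ∃ q ∈ qs, q.X = l := by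
  simp [colsQ]

theorem StageM_topc {L : List (Rec V)} {B Y : ℚ} (h : OrdL B L Y) : B < topc L Y ∧ topc L Y ≤ Y := by
  cases L with
  | nil => exact ⟨h, le_rfl⟩
  | cons r t =>
    obtain ⟨h1, h2, h3⟩ := h.mem (r := r) List.mem_cons_self
    exact ⟨h1.trans h2, h3.le⟩

/-! ### facts about a stage -/

section facts
variable {G : SimpleGraph V} {Γ : Dr V} {U : Bool → Finset ℚ} {D : Cov} {s : SD V}

theorem SG.BY (hG : SG Γ U D s) : s.B < s.Y0 := hG.ordL.lt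

theorem SG.hA (hG : SG Γ U D s) : s.Xz < s.A := hG.o1.trans_le hG.o2

theorem SG.hzd (hG : SG Γ U D s) : s.Xz < s.Xd := hG.hA.trans hG.o3

theorem SG.Λ1B (hG : SG Γ U D s) : s.l1.Λ < s.B :=
  (hG.line1.ok.h6.trans_lt hG.line1.ok.h7).trans_le hG.line1.sB

theorem SG.Λ2B (hG : SG Γ U D s) : s.l2.Λ < s.B :=
  (hG.line2.ok.h6.trans_lt hG.line2.ok.h7).trans_le hG.line2.sB

theorem SG.Λ1U (hG : SG Γ U D s) (hw : Wd G Γ U) : s.l1.Λ ∈ U false :=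
  hG.line1.ok.zone.mem (v := s.l1.ow) (Or.inl rfl) hw.lines hG.line1.ok.h4

theorem SG.Λ2U (hG : SG Γ U D s) (hw : Wd G Γ U) : s.l2.Λ ∈ U false :=
  hG.line2.ok.zone.mem (v := s.l2.ow) (Or.inl rfl) hw.lines hG.line2.ok.h4

theorem SG.Y0U (hG : SG Γ U D s) (hw : Wd G Γ U) : s.Y0 ∈ U false :=
  hG.bbase.mem (v := s.d) rfl hw.lines hG.o3

theorem SG.XdU (hG : SG Γ U D s) (hw : Wd G Γ U) : s.Xd ∈ U true :=
  hG.dcol.mem (v := s.d) rfl hw.lines hG.BY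

theorem SG.XwU (hG : SG Γ U D s) (hw : Wd G Γ U) : s.Xw ∈ U true :=
  hG.wcol.mem (v := s.w) rfl hw.lines (hG.BY.trans hG.o5)

theorem SG.XzU (hG : SG Γ U D s) (hw : Wd G Γ U) : s.Xz ∈ U true :=
  hG.zcol.mem (v := s.z) rfl hw.lines (StageM_topc hG.ordL).1

theorem SG.lc1 (hG : SG Γ U D s) : s.l1.lc < s.Xd :=
  (hG.line1.ok.h3.trans_lt hG.line1.ok.h4).trans hG.e1

theorem SG.lc1U (hG : SG Γ U D s) (hw : Wd G Γ U) : s.l1.lc ∈ U true :=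
  hG.line1.ok.strip.mem (v := s.z) rfl hw.lines hG.line1.ok.h7

theorem SG.row_mem (hG : SG Γ U D s) {r : Rec V} (hr : r ∈ s.L) : s.B < r.c ∧ r.c < s.Y0 := by
  obtain ⟨h1, h2, h3⟩ := hG.ordL.mem hr
  exact ⟨h1.trans h2, h3⟩

theorem SG.row_U (hG : SG Γ U D s) {r : Rec V} (hr : r ∈ s.L) : r.c ∈ U false := by
  obtain ⟨q, -, h⟩ := hG.black r hr
  exact h.hc

theorem SG.topc_U (hG : SG Γ U D s) (hw : Wd G Γ U) : topc s.L s.Y0 ∈ U false :=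
  hG.top.mem (v := topv s.L s.d) rfl hw.lines hG.o1

end facts

/-- The geometric M-state of a stage. `Γ₀, U₀` is the drawing at the beginning of the stage; `Γ, U` the
drawing after the placements `qs` (kind `dir`) on line 1 and the drawing of the base `a0` with its column
`X0`. The growth has to avoid the column of `z` below the first black line (`g1`), all old rows except
the line 1 (`g2`) and the pending black vertices. -/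
theorem stage_mst {G : SimpleGraph V} {Γ₀ Γ : Dr V} {U₀ U : Bool → Finset ℚ} {D Dp : Cov}
    {K : Set V} {s : SD V} {a X0 yu l₀ l₁ : ℚ} {a0 : V} {qs : List (Pl V)}
    (hw : Wd G Γ₀ U₀) (hG : SG Γ₀ U₀ D s) (hU : ∀ o, U₀ o ⊆ U o) (hg : Grow Γ₀ Γ Dp K)
    (hK : ∀ r ∈ s.L, r.v ∉ K)
    (g1 : ∀ x, s.B < x → x < topc s.L s.Y0 → x ∉ Dp true s.Xz)
    (g2 : ∀ l ∈ U₀ false, l ≠ s.l1.Λ → ∀ x, x ∉ Dp false l)
    (hq : ∀ q ∈ qs, PlD Γ U D s.l1.Λ s.B q) (ho : OrdP a qs s.Xd) (ha : s.A ≤ a)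
    (hX0 : s.Xd ≤ X0) (hX0w : X0 ≤ s.Xw) (hB : OrdL s.B s.L yu) (hyu : yu ≤ s.Y0)
    (hwb : SW Γ D {a0} true X0 s.B yu) (hl1 : l₁ ≤ s.A) (hl0 : s.L = [] → l₁ ≤ l₀) :
    MSt PI Γ U (stD U D (colsQ s.Xz qs) (rowsL s.L) s.B s.Y0 X0 yu s.Xd l₀ l₁) s.z s.Xz s.h s.A
      s.B (qs.map (wrec s.B)) a0 X0 s.Xd s.L s.d s.Y0 yu := by
  have hΛB := hG.Λ1B
  have hY0U := hG.Y0U hw
  have hY0Λ : s.Y0 ≠ s.l1.Λ := (hΛB.trans hG.BY).ne'
  refine ⟨⟨OrdL.mono (OrdP.ordL ho) ha le_rfl, hB, hX0, hyu, ?_, ?_, ?_, ?_⟩, hG.o1, hG.o2,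
    ?_, ?_⟩
  · intro r hr
    obtain ⟨q, hqm, rfl⟩ := List.mem_map.1 hr
    obtain ⟨es, h1, h2⟩ := (hq q hqm).cov
    have ho1 := CoreG2_ordP_mem ho hqm
    refine ⟨s.B, le_rfl, ?_⟩
    refine direct_pend (e' := es) (Λ := s.l1.Λ) h1 hΛB ho1.2.1 (by linarith) (by linarith)
      (fun C hC => hC.path) h2 (hq q hqm).hX (hq q hqm).hg ?_
    intro x hx1 hx2
    refine ⟨?_, ((hq q hqm).lX x hx1).2⟩
    rw [mem_stD_v]
    exact ⟨((hq q hqm).lX x hx1).1, Or.inr (Or.inl ⟨mem_colsQ.2 (Or.inr ⟨q, hqm, rfl⟩), hx1, hx2⟩)⟩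
  · intro r hr
    obtain ⟨q, hqA, h1⟩ := hG.black r hr
    have hre : r.e < q := (h1.plain (hG.pl r hr)).2.1
    have hrow := hG.row_mem hr
    have h2 : Pend PI Γ U D false q s.Xw r := by
      refine h1.grow hg hU (hK r hr) (fun x _ _ => g2 _ h1.hc (hΛB.trans hrow.1).ne' x) ?_
      intro x hx1 hx2
      exact absurd (hx1.trans hx2) (not_le.2 hre)
    refine ⟨q, hqA, (h2.mono_hi hX0w).mono_D ?_ ?_⟩
    · intro x _ _ hx
      rw [mem_stD_h]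
      exact ⟨hx, Or.inr (Or.inl (mem_rowsL.2 ⟨r, hr, rfl⟩))⟩
    · intro x hx1 hx2
      exact absurd (hx1.trans hx2) (not_le.2 hre)
  · intro x hx1 hx2
    refine ⟨?_, (hwb x hx1 hx2).2⟩
    rw [mem_stD_v]
    exact ⟨(hwb x hx1 hx2).1, Or.inr (Or.inr ⟨rfl, hx1.le, hx2⟩)⟩
  · have h1 := hG.bbase.grow hg (fun x _ _ => g2 _ hY0U hY0Λ x)
    intro x hx1 hx2
    refine ⟨?_, (h1 x hx1 hx2).2⟩
    rw [mem_stD_h]
    refine ⟨(h1 x hx1 hx2).1, Or.inr (Or.inr ⟨rfl, hx2, ?_⟩)⟩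
    rintro ⟨-, h3⟩
    linarith
  · obtain ⟨ht1, ht2⟩ := StageM_topc hG.ordL
    have h1 := hG.zcol.grow hg g1
    intro x hx1 hx2
    refine ⟨?_, (h1 x hx1 hx2).2⟩
    rw [mem_stD_v]
    exact ⟨(h1 x hx1 hx2).1, Or.inr (Or.inl ⟨mem_colsQ.2 (Or.inl rfl), hx1.le, hx2.trans_le ht2⟩)⟩
  · obtain ⟨ht1, ht2⟩ := StageM_topc hG.ordL
    have h1 := hG.top.grow hg (fun x _ _ => g2 _ (hG.topc_U hw) (hΛB.trans ht1).ne' x)
    intro x hx1 hx2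
    refine ⟨?_, (h1 x hx1 hx2).2⟩
    rw [mem_stD_h]
    refine ⟨(h1 x hx1 hx2).1, Or.inr ?_⟩
    cases hL : s.L with
    | nil =>
      refine Or.inr ⟨rfl, ?_, ?_⟩
      · linarith [hG.o2, hG.o3]
      · rintro ⟨h3, h4⟩
        have := hl0 hL
        linarith
    | cons r t => exact Or.inl (mem_rowsL.2 ⟨r, List.mem_cons_self, rfl⟩)

/-- The link of the M-state. -/
theorem stage_link {G : SimpleGraph V} {Γ₀ Γ : Dr V} {U₀ U : Bool → Finset ℚ} {D Dp : Cov}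
    {K : Set V} {s : SD V} {X0 yu l₀ l₁ : ℚ} {S : Finset ℚ}
    (hw : Wd G Γ₀ U₀) (hG : SG Γ₀ U₀ D s) (hU : ∀ o, U₀ o ⊆ U o) (hg : Grow Γ₀ Γ Dp K)
    (g2 : ∀ l ∈ U₀ false, l ≠ s.l1.Λ → ∀ x, x ∉ Dp false l) (ht : TCh s.L s.Y0)
    (hl : l₀ < l₁) (hl1 : l₁ ≤ s.A) (hz : Solo Γ₀ {lastv s.L s.d, s.d} false s.Y0 l₀ l₁) :
    Link Γ (stD U D S (rowsL s.L) s.B s.Y0 X0 yu s.Xd l₀ l₁) s.A s.L s.d s.Y0 := by
  have hY0U := hG.Y0U hw
  have hY0Λ : s.Y0 ≠ s.l1.Λ := (hG.Λ1B.trans hG.BY).ne'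
  refine ⟨ht, l₀, l₁, hl, hl1, hz.grow hg (fun x _ _ => g2 _ hY0U hY0Λ x), ?_⟩
  intro x hx1 hx2
  rw [mem_stD_h]
  rintro ⟨-, h | h | ⟨-, -, h⟩⟩
  · exact h (hU _ hY0U)
  · have := (rowsL_bd hG.ordL h).2
    exact absurd this (lt_irrefl _)
  · exact h ⟨hx1, hx2⟩

/-! ### the combinatorial part -/

theorem StageM_tail {α : Type*} {P : α → α → Prop} {z : α} {l : List α} {a : α}
    (h : List.IsChain P (z :: (l ++ [a]))) : List.IsChain P (l ++ [a]) :=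
  List.IsChain.tail h

theorem topv_wrec (B : ℚ) (qs : List (Pl V)) (a0 : V) :
    (qs.map Pl.v ++ [a0]).head? = some (topv (qs.map (wrec B)) a0) := by
  cases qs with
  | nil => rfl
  | cons q t => rfl

/-- the boundary list of the machine of a stage -/
theorem lN_wrec (B : ℚ) (qs : List (Pl V)) (a0 : V) (L : List (Rec V)) (d : V) (be : List V) :
    lN (qs.map (wrec B)) a0 L d be = rv L ++ [d] ++ be ++ (qs.map Pl.v ++ [a0]).reverse := by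
  unfold lN
  rw [rv_wrec]

/-- The M-state (with the combinatorial part) of a stage: faces `F₁`, whites `qs`, base `a0`, rest
`be`. -/
theorem stage_MG1 {G : SimpleGraph V} {T : Finset V} {Fs : Finset (Finset V)}
    {J : Finset V → Finset V} {Ex Ex' : V → V → Prop} {Γ₀ Γ : Dr V}
    {U : Bool → Finset ℚ} {D D₁ Dp : Cov} {K : Set V} {s : SD V} {F F₁ : Finset (Finset V)}
    {X0 yu : ℚ} {a0 : V} {qs : List (Pl V)} {be : List V}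
    (hpl : ∀ r ∈ s.L, r.pl = true) (hS : SC G T Fs J Ex Γ₀ s F) (hw : Wd G Γ U)
    (hg : Grow Γ₀ Γ Dp K) (hD : Adm U D₁) (hEx : ∀ u v, Ex u v → Ex' u v) (hF : F₁ ⊆ F)
    (hreg : Reg T Fs (rv s.L ++ [s.d] ++ be ++ (qs.map Pl.v ++ [a0]).reverse ++ [s.z]) F₁)
    (hin : ∀ v ∈ verts (rv s.L ++ [s.d] ++ be ++ (qs.map Pl.v ++ [a0]).reverse ++ [s.z]) F₁,
      v ∉ rv s.L ++ [s.d] ++ be ++ (qs.map Pl.v ++ [a0]).reverse ++ [s.z] →
      v ∈ verts s.bd F ∧ v ∉ s.bd)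
    (hz : ∀ v ∈ be ++ (qs.map Pl.v ++ [a0]).tail, ¬ AdjF F₁ s.z v)
    (hav : ∀ p ∈ qs.map Pl.v, ∀ v ∈ be, ¬ AdjF F₁ p v)
    (hch : Chless F₁ (qs.map Pl.v ++ [a0])) (hbase : be ≠ [] → ¬ AdjF F₁ a0 s.d)
    (hmst : MSt PI Γ U D₁ s.z s.Xz s.h s.A s.B (qs.map (wrec s.B)) a0 X0 s.Xd s.L s.d s.Y0 yu)
    (hrW : List.IsChain (Rz Ex' Γ) (s.z :: (qs.map Pl.v ++ [a0])))
    (hrB : be = [] → Rz Ex' Γ a0 s.d)
    (hlk : be ≠ [] → s.L ≠ [] → Link Γ D₁ s.A s.L s.d s.Y0)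
    (hund : ∀ v ∈ Own J (rv s.L ++ [s.d] ++ be ++ (qs.map Pl.v ++ [a0]).reverse ++ [s.z]) F₁,
      v ∉ K) :
    MG1 G PI T Fs J Ex' Γ U D₁ s.z s.Xz s.h s.A s.B (qs.map (wrec s.B)) a0 X0 s.Xd s.L s.d s.Y0
      yu be F₁ := by
  have hmono : ∀ {u v : V}, Rz Ex Γ₀ u v → Rz Ex' Γ u v := fun {u v} h =>
    (Rz.mono hg h).imp (hEx u v) id
  refine ⟨hD, hw, hmst, ?_, ?_, ?_, ?_⟩
  · rw [rv_wrec]
    refine ⟨hreg, hS.chB.mono hF, hch, ?_, ?_⟩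
    · intro v hv
      rw [List.append_assoc, List.mem_append] at hv
      rcases hv with hv | hv
      · exact fun h => hS.z1 v hv (CombA_adj_mono hF h)
      · exact hz v hv
    · intro c hc1 hc2 hc3 v hv
      rw [List.append_nil] at hv
      obtain ⟨h1, h2⟩ := hin c hc1 hc2
      exact fun h => hS.z2 c h1 h2 (CombA_adj_mono hF hc3) v hv (CombA_adj_mono hF h)
  · rw [lN_wrec]
    refine ⟨?_, hbase, ?_, fun _ _ _ h => h, hpl, ?_, ?_, hrB, hlk⟩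
    · rw [rv_wrec]
      exact hav
    · intro v hv
      refine Undrawn.grow hg (hS.und v ?_) (hund v hv)
      rcases hv with ⟨h1, h2⟩ | ⟨f, hf, hvf⟩
      · exact Or.inl (hin v h1 h2)
      · exact Or.inr (Or.inr (Or.inr ⟨f, Finset.mem_union_left _ (hF hf), hvf⟩))
    · rw [rv_wrec]
      exact StageM_tail hrW
    · exact hS.rL.imp fun _ _ h => hmono h
  · have h1 := topv_wrec s.B qs a0
    cases hq : qs.map Pl.v ++ [a0] with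
    | nil => simp at hq
    | cons x t =>
      rw [hq] at hrW h1
      have h2 : x = topv (qs.map (wrec s.B)) a0 := by simpa using h1
      rw [← h2]
      exact (List.isChain_cons_cons.1 hrW).1
  · exact hmono hS.rz2

end EPG26
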