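import Pool.Agent.W_26e041_h22.StageK

/-!
Shared part of the stage files: the placements on line 1.
-/

namespace EPG26

variable {V : Type*} [DecidableEq V]

/-- Where the placements on line 1 draw: new lines, the column `lc` of the last vertex below `B`, the
line `Λ` left of `Xw`; everything inside `D`. -/
def plR (U : Bool → Finset ℚ) (D : Cov) (Λ lc Xw B : ℚ) : Cov :=
  D ⊓ fun o l => {x | if o then l ∉ U true ∨ (l = lc ∧ x < B) else l ∉ U false ∨ (l = Λ ∧ x < Xw)}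

theorem mem_plR_v {U : Bool → Finset ℚ} {D : Cov} {Λ lc Xw B l x : ℚ} :
    x ∈ plR U D Λ lc Xw B true l ↔ x ∈ D true l ∧ (l ∉ U true ∨ (l = lc ∧ x < B)) := by
  simp [plR]

theorem mem_plR_h {U : Bool → Finset ℚ} {D : Cov} {Λ lc Xw B l x : ℚ} :
    x ∈ plR U D Λ lc Xw B false l ↔ x ∈ D false l ∧ (l ∉ U false ∨ (l = Λ ∧ x < Xw)) := by
  simp [plR]

/-- a step on the line `Λ` in the region `plR` -/
theorem lineD_plR {U Ua : Bool → Finset ℚ} {D : Cov} {Λ lc Xw B lc' c0 b lo hi s0 s1 : ℚ}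
    (hD : lineD Ua Λ lc' c0 b lo hi s0 s1 ≤ D) (hU : ∀ o, U o ⊆ Ua o)
    (hlc : lc' = lc ∨ lc' ∉ U true) (hb : b ≤ Xw) (hhi : hi ≤ Xw) (hc0 : c0 ≤ b) (hlo : lo ≤ hi)
    (hs : s1 ≤ B) (hs0 : s0 ≤ s1) : lineD Ua Λ lc' c0 b lo hi s0 s1 ≤ plR U D Λ lc Xw B := by
  intro o l x hx
  have h1 := hD o l hx
  cases o with
  | true =>
    rw [mem_plR_v]
    refine ⟨h1, ?_⟩
    rcases hx with ((hx | hx) | hx) | hx
    · exact Or.inl fun h => hx (hU _ h)
    · exact absurd hx.1 (by simp)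
    · exact absurd hx.1 (by simp)
    · obtain ⟨-, h2, -, h3⟩ := hx
      rw [max_eq_right hs0] at h3
      rcases hlc with h4 | h4
      · exact Or.inr ⟨h2.trans h4, h3.trans_le hs⟩
      · exact Or.inl (h2 ▸ h4)
  | false =>
    rw [mem_plR_h]
    refine ⟨h1, ?_⟩
    rcases hx with ((hx | hx) | hx) | hx
    · exact Or.inl fun h => hx (hU _ h)
    · obtain ⟨-, h2, -, h3⟩ := hx
      rw [max_eq_right hlo] at h3
      exact Or.inr ⟨h2, h3.trans_le hhi⟩
    · obtain ⟨-, h2, h3⟩ := hx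
      refine Or.inr ⟨h2, lt_of_lt_of_le ?_ hb⟩
      exact (max_eq_right hc0 ▸ h3.2)
    · exact absurd hx.1 (by simp)

/-- The drawing after the placement of a part `al1` of `al` on line 1. -/
structure PSt (G : SimpleGraph V) (J : Finset V → Finset V) (Γ : Dr V) (U : Bool → Finset ℚ)
    (D : Cov) (s : SD V) (al1 : List V) (Γa : Dr V) (Ua : Bool → Finset ℚ) (qs : List (Pl V))
    (lv : V) (lc' c0' e' lo' s0' : ℚ) : Prop where
  vs : qs.map Pl.v = al1
  ord : OrdP (max s.A s.l1.e) qs s.Xd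
  step : Step G Γ U (plR U D s.l1.Λ s.l1.lc s.Xw s.B)
    {q | q = s.z ∨ q ∈ al1 ∨ ∃ f ∈ fanF s.l1.ow (s.z :: al1), q ∈ J f} Γa Ua
  z : ∃ sz, s.l1.e ≤ sz ∧ Γa s.z = Γ s.z ⊔ hseg false s.l1.Λ s.l1.e sz ∧ (al1 = [] → sz = e')
  pld : ∀ q ∈ qs, PlD Γa Ua D s.l1.Λ s.B q
  new : ∀ q ∈ qs, q.X ∉ U true
  lst : ∀ q, qs.getLast? = some q → q.v = lv ∧ q.X < e' ∧
    Γa q.v = seg false s.l1.Λ q.X e' ⊔ seg true q.X s.l1.Λ s.B
  lst0 : al1 = [] → lv = s.z
  fill : ∀ f ∈ fanF s.l1.ow (s.z :: al1), Filled G Γa (J f)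
  chain : List.IsChain (Ov Γa) (s.z :: al1)
  ow : ∀ v ∈ s.z :: al1, Ov Γa v s.l1.ow
  last : (s.z :: al1).getLast? = some lv
  line : LineOK Γa D s.l1.ow s.l1.Λ lv lc' c0' e' s.l1.R lo' s.l1.hi s0' s.l1.s1
  eX : e' < s.Xd
  lc : lc' = s.l1.lc ∨ lc' ∉ U true

theorem StageP_getLast {α : Type*} {x y : α} {l : List α} (hl : l ≠ []) :
    (x :: l).getLast? = some y ↔ l.getLast? = some y := by
  cases l with
  | nil => exact absurd rfl hl
  | cons a t => simp [List.getLast?_cons_cons]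

/-- The placement of a part `al1` of `al`. -/
theorem stage_p1 {G : SimpleGraph V} {T : Finset V} {Fs : Finset (Finset V)}
    {J : Finset V → Finset V} {Ex : V → V → Prop} (hc : Ctx G T Fs J) {Γ : Dr V}
    {U : Bool → Finset ℚ} {D : Cov} {s : SD V} {F : Finset (Finset V)} (hw : Wd G Γ U)
    (hD : Adm U D) (hG : SG Γ U D s) (hS : SC G T Fs J Ex Γ s F) {al1 al2 : List V}
    (ha : s.al = al1 ++ al2) :
    ∃ (Γa : Dr V) (Ua : Bool → Finset ℚ) (qs : List (Pl V)) (lv : V) (lc' c0' e' lo' s0' : ℚ),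
      PSt G J Γ U D s al1 Γa Ua qs lv lc' c0' e' lo' s0' := by
  have hl := hG.line1
  have hmax : max s.A s.l1.e < s.Xd := max_lt hG.o3 hG.e1
  have hXR : s.Xd ≤ s.l1.R := hG.o4.le.trans hl.XR
  have hmap : (al1.map fun v => (v, Kind.dir)).map Prod.fst = al1 := by
    rw [List.map_map]
    exact List.map_id'' (fun _ => rfl) al1
  have hpre : s.z :: al1 <+: s.z :: s.al ++ [s.w] := by
    rw [ha]
    exact ⟨al2 ++ [s.w], by simp⟩
  have hch : List.IsChain (fun p q => ({s.l1.ow, p, q} : Finset V) ∈ Fs) (s.z :: al1) := by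
    obtain ⟨t, ht⟩ := hpre
    have h1 := hS.ln1
    rw [← ht] at h1
    exact (List.isChain_append.1 h1).1
  have hnd : (s.l1.ow :: s.z :: al1).Nodup := by
    have h1 := hS.nd
    unfold SD.bd at h1
    rw [ha] at h1
    simp only [List.nodup_cons, List.nodup_append, List.mem_append, List.mem_cons,
      List.mem_reverse, List.not_mem_nil, or_false, List.nodup_reverse] at h1 ⊢
    grind
  have hfan : fanF s.l1.ow (s.z :: al1) ⊆ fanF s.l1.ow (s.z :: s.al ++ [s.w]) := by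
    intro f hf
    obtain ⟨p, x, y, t, h1, h2⟩ := DiscH_mem_fanF.1 hf
    obtain ⟨r, hr⟩ := hpre
    refine DiscH_mem_fanF.2 ⟨p, x, y, t ++ r, ?_, h2⟩
    rw [← hr, h1]
    simp
  have hvo : G.Adj s.z s.l1.ow := hS.adj1 hc (by simp)
  obtain ⟨Γa, Ua, qs, sz, lv, lc', c0', e', lo', s0', h1, h2, h3, h4, h5, h6, h7, h8, h9, h10,
    h11, h12, h13, h14, h15, h16⟩ := placeL (ps := al1.map fun v => (v, Kind.dir)) (T₁ := 0)
      (T₂ := 1) (yl := s.l1.s1) (y₁ := 0) hc hw hD hl.ok (le_max_right s.A s.l1.e) hmax hXR hl.sB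
      le_rfl zero_lt_one zero_lt_one (by rw [hmap]; exact hch) (by rw [hmap]; exact hnd) hvo
      (by
        rw [hmap]
        intro p hp
        exact hS.und p (Or.inr (Or.inl (by rw [ha]; simp [hp]))))
      (by
        rw [hmap]
        intro f hf q hq
        refine hS.und q (Or.inr (Or.inr (Or.inr ⟨f, ?_, hq⟩)))
        exact Finset.mem_union_right _ (Finset.mem_union_left _ (hfan hf)))
  rw [hmap] at h3 h9 h10 h12
  have hvs : qs.map Pl.v = al1 := by
    have h20 : (qs.map fun q => (q.v, q.k)).map Prod.fst = al1 := by rw [h1, hmap]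
    rw [List.map_map] at h20
    exact h20
  have hkd : ∀ q ∈ qs, q.k = Kind.dir := by
    intro q hq
    have h20 : (q.v, q.k) ∈ al1.map fun v => (v, Kind.dir) := by
      rw [← h1]
      exact List.mem_map.2 ⟨q, hq, rfl⟩
    obtain ⟨v, -, hv⟩ := List.mem_map.1 h20
    exact (Prod.mk.inj hv).2.symm
  have hcov : ∀ q ∈ qs, Γa q.v = seg false s.l1.Λ q.X q.es ⊔ seg true q.X s.l1.Λ s.B := by
    intro q hq
    rw [(h7 q hq).cov]
    unfold Pl.cov
    rw [hkd q hq]
  have hlast : ∀ q, qs.getLast? = some q → q.v = lv := by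
    intro q hq
    have hne : al1 ≠ [] := by
      rintro rfl
      have : qs = [] := List.map_eq_nil_iff.1 hvs
      rw [this] at hq
      simp at hq
    rw [StageP_getLast hne, ← hvs, List.getLast?_map, hq] at h12
    simpa using h12
  have hps0 : al1 = [] ↔ (al1.map fun v => (v, Kind.dir)) = [] := by simp
  have hlc : lc' = s.l1.lc ∨ lc' ∉ U true := by
    by_cases hne : al1 = []
    · exact Or.inl (h13 (hps0.1 hne)).1
    · have hqne : qs ≠ [] := by
        rintro rfl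
        exact hne hvs.symm
      obtain ⟨q, hq⟩ : ∃ q, qs.getLast? = some q := by
        cases h20 : qs.getLast? with
        | none => exact absurd (List.getLast?_eq_none_iff.1 h20) hqne
        | some q => exact ⟨q, rfl⟩
      have hqm : q ∈ qs := List.mem_of_getLast? hq
      obtain ⟨x, hx1, hx2⟩ := exists_between h16.h7
      have h21 : x ∈ Γa lv true lc' := ((h16.strip x hx1 hx2).2 lv).2 rfl
      rw [← hlast q hq, hcov q hqm] at h21
      rcases h21 with h21 | h21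
      · exact absurd h21.1 (by simp)
      · right
        rw [h21.2.1]
        exact (h8 q hqm).1
  have hD' : lineD U s.l1.Λ s.l1.lc s.l1.c0 s.Xd s.l1.lo s.l1.hi s.l1.s0 s.l1.s1 ≤ D :=
    lineD_le hD hl.ok (hl.ok.h4.le.trans hG.e1.le) hXR
  refine ⟨Γa, Ua, qs, lv, lc', c0', e', lo', s0', hvs, h2, ?_, ⟨sz, h4, h6, fun hne => ?_⟩, ?_,
    fun q hq => (h8 q hq).1, ?_, ?_, h9, h10, ?_, h12, h16, ?_, hlc⟩
  · refine h3.weaken (lineD_plR hD' (fun _ _ h => h) (Or.inl rfl) hG.o4.le ?_ ?_ hl.ok.h1.le hl.sB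
      hl.ok.h7.le) (fun q hq => hq)
    · have := hl.ok.h2.trans (hl.ok.h3.trans hl.ok.h4.le)
      exact this.trans hl.eX.le
    · exact hl.ok.h4.le.trans hG.e1.le
  · obtain ⟨-, -, h20, h21⟩ := h13 (hps0.1 hne)
    rw [h20, h21]
  · exact fun q hq => (h7 q hq).plD (hkd q hq) hl.sB
  · intro q hq
    have hqm : q ∈ qs := List.mem_of_getLast? hq
    have h20 := h14 q hq
    refine ⟨hlast q hq, ?_, ?_⟩
    · rw [← h20]
      exact (h7 q hqm).es
    · rw [← h20]
      exact hcov q hqm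
  · rintro rfl
    simpa using h12.symm
  · intro v hv
    rcases List.mem_cons.1 hv with rfl | hv
    · obtain ⟨x, hx1, hx2⟩ := exists_between hl.ok.h4
      refine ⟨false, s.l1.Λ, x, ?_, ?_⟩
      · exact h3.grow.mono _ _ _ _ (((hl.ok.zone x hx1 hx2).2 s.z).2 (Or.inr rfl))
      · exact h3.grow.mono _ _ _ _ (((hl.ok.zone x hx1 hx2).2 s.l1.ow).2 (Or.inl rfl))
    · rw [← hvs] at hv
      obtain ⟨q, hq, rfl⟩ := List.mem_map.1 hv
      exact h11 q hq
  · rcases h15 with h20 | h20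
    · exact h20
    · rw [(h13 h20).2.2.1]
      exact hG.e1

end EPG26
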